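import Pool.Agent.U61.NX.Defs
import Pool.Agent.Helper178.GramLfp

set_option autoImplicit false

/-!
# The language is context-free
-/

namespace Pool.Agent.U61.NX

open Pool.Agent.Helper178.Gram Symbol

/-- The nonterminals. -/
inductive NT
  | Z | S | P | X | U | A | B
  | M (c : Ga)

/-- The names of the rules. -/
inductive RI
  | zs | sp | pe | px | pc | xe | xx | ue | ae | be
  | zm (c : Ga) | uc (c : Ga) | au (c : Ga) | bu (c : Ga) | mm (c : Ga) | m1 (c : Ga) | m2 (c : Ga)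
  | m3 (c : Ga) | m4 (c : Ga) | m5 (c : Ga)
  | sb (t : Fin 3)
  deriving Fintype

/-- The rules. -/
def rl : RI → ContextFreeRule Ga NT
  | .zs => ⟨.Z, [nonterminal .S]⟩
  | .sp => ⟨.S, [nonterminal .P]⟩
  | .pe => ⟨.P, []⟩
  | .px => ⟨.P, [terminal .x, nonterminal .P]⟩
  | .pc => ⟨.P, [terminal (.op 2), nonterminal .S, terminal (.cl 2), nonterminal .P]⟩
  | .xe => ⟨.X, []⟩
  | .xx => ⟨.X, [terminal .x, nonterminal .X]⟩
  | .ue => ⟨.U, []⟩
  | .ae => ⟨.A, []⟩
  | .be => ⟨.B, []⟩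
  | .zm c => ⟨.Z, [nonterminal .A, nonterminal (.M c), nonterminal .B]⟩
  | .uc c => ⟨.U, [terminal c, nonterminal .U]⟩
  | .au c => ⟨.A, [nonterminal .U, terminal c]⟩
  | .bu c => ⟨.B, [terminal c, nonterminal .U]⟩
  | .mm c => ⟨.M c, [terminal .x, nonterminal (.M c), terminal .x]⟩
  | .m1 c => ⟨.M c, [terminal .x, terminal .x, nonterminal .X, terminal c]⟩
  | .m2 c => ⟨.M c, [terminal c, terminal .x, terminal .x, nonterminal .X]⟩
  | .m3 c => ⟨.M c, [terminal c]⟩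
  | .m4 c => ⟨.M c, [terminal .x, terminal c]⟩
  | .m5 c => ⟨.M c, [terminal c, terminal .x]⟩
  | .sb t => ⟨.S, [nonterminal .P, terminal (.op t), nonterminal .S, terminal (.cl t),
      nonterminal .P]⟩

/-- The rules which are used. -/
def vd : RI → Prop
  | .au c => c ≠ .x
  | .bu c => c ≠ .x
  | .m1 c => c ≠ .x
  | .m2 c => c ≠ .x
  | .m3 c => c ≠ .x ∧ ¬ Ok c 0 0
  | .m4 c => c ≠ .x ∧ ¬ Ok c 1 0
  | .m5 c => c ≠ .x ∧ ¬ Ok c 0 1
  | .sb t => t ≠ 2
  | _ => True

open Classical in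
/-- The grammar. -/
noncomputable def gr : ContextFreeGrammar Ga where
  NT := NT
  initial := .Z
  rules := (Finset.univ.filter vd).image rl

theorem mem_gr (r : ContextFreeRule Ga NT) : r ∈ gr.rules ↔ ∃ i, vd i ∧ rl i = r := by
  classical
  constructor
  · intro h
    obtain ⟨i, hi, h⟩ := Finset.mem_image.1 h
    exact ⟨i, (Finset.mem_filter.1 hi).2, h⟩
  · rintro ⟨i, hi, h⟩
    exact Finset.mem_image.2 ⟨i, Finset.mem_filter.2 ⟨Finset.mem_univ i, hi⟩, h⟩

/-- The meaning of the nonterminals. -/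
def In : NT → List Ga → Prop
  | .Z, w => w ∈ Lng
  | .S, w => ∃ k, W true k w
  | .P, w => ∃ k, W false k w
  | .X, w => ∃ n, w = rp n
  | .U, _ => True
  | .A, w => NotEnd w
  | .B, w => NotBeg w
  | .M c, w => c ≠ .x ∧ ∃ e F, w = rp e ++ c :: rp F ∧ ¬ Ok c e F

theorem dl_ge (c : Ga) : -1 ≤ dl c := by
  cases c with
  | x => simp [dl]
  | op i => simp only [dl]; split <;> omega
  | cl i => simp only [dl]; split <;> omega

theorem in_closed (i : RI) (hi : vd i) (w : List Ga) (h : Yl In (rl i).output w) :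
    In (rl i).input w := by
  cases i with
  | zs =>
    obtain ⟨w1, w2, rfl, h1, h2⟩ := h
    obtain rfl : w2 = [] := h2
    rw [List.append_nil]
    exact Or.inl h1
  | sp =>
    obtain ⟨w1, w2, rfl, ⟨k, h1⟩, h2⟩ := h
    obtain rfl : w2 = [] := h2
    rw [List.append_nil]
    exact ⟨k, W.lift k _ h1⟩
  | pe =>
    obtain rfl : w = [] := h
    exact ⟨0, W.nil 0⟩
  | px =>
    obtain ⟨w0, rfl, w1, w2, rfl, ⟨k, h1⟩, h2⟩ := h
    obtain rfl : w2 = [] := h2
    rw [List.append_nil]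
    exact ⟨k, W.x k _ h1⟩
  | pc =>
    obtain ⟨w0, rfl, w1, w2, rfl, ⟨k, h1⟩, w3, rfl, w4, w5, rfl, ⟨k', h2⟩, h3⟩ := h
    obtain rfl : w5 = [] := h3
    rw [List.append_nil]
    exact ⟨max k k' + 1, W.call _ _ _ (h1.mono (le_max_left _ _))
      (h2.mono ((le_max_right k k').trans (Nat.le_succ _)))⟩
  | xe =>
    obtain rfl : w = [] := h
    exact ⟨0, rfl⟩
  | xx =>
    obtain ⟨w0, rfl, w1, w2, rfl, ⟨n, rfl⟩, h2⟩ := h
    obtain rfl : w2 = [] := h2
    rw [List.append_nil]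
    exact ⟨n + 1, (rp_succ n).symm⟩
  | ue => trivial
  | ae =>
    obtain rfl : w = [] := h
    exact notEnd_nil
  | be =>
    obtain rfl : w = [] := h
    exact notBeg_nil
  | zm c =>
    obtain ⟨α, w1, rfl, hα, w2, w3, rfl, ⟨hc, e, F, rfl, hO⟩, β, w4, rfl, hβ, h4⟩ := h
    obtain rfl : w4 = [] := h4
    refine Or.inr ⟨α, e, c, F, β, ?_, hα, hβ, hc, hO⟩
    simp
  | uc c => trivial
  | au c =>
    obtain ⟨w1, w2, rfl, -, w3, rfl, h3⟩ := h
    obtain rfl : w3 = [] := h3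
    exact notEnd_snoc _ hi
  | bu c =>
    obtain ⟨w1, rfl, -⟩ := h
    exact notBeg_cons hi _
  | mm c =>
    obtain ⟨w1, rfl, w2, w3, rfl, ⟨hc, e, F, rfl, hO⟩, w4, rfl, h4⟩ := h
    obtain rfl : w4 = [] := h4
    refine ⟨hc, e + 1, F + 1, ?_, ?_⟩
    · rw [rp_succ, rp_succ']; simp
    · rw [Ok_iff hc] at hO ⊢
      push_cast
      omega
  | m1 c =>
    obtain ⟨w1, rfl, w2, rfl, w3, w4, rfl, ⟨n, rfl⟩, w5, rfl, h5⟩ := h
    obtain rfl : w5 = [] := h5
    refine ⟨hi, n + 2, 0, ?_, ?_⟩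
    · rw [rp_succ, rp_succ]; simp
    · rw [Ok_iff hi]
      have := dl_ge c
      push_cast
      omega
  | m2 c =>
    obtain ⟨w1, rfl, w2, rfl, w3, rfl, w4, w5, rfl, ⟨n, rfl⟩, h5⟩ := h
    obtain rfl : w5 = [] := h5
    refine ⟨hi, 0, n + 2, ?_, ?_⟩
    · rw [rp_succ, rp_succ]; simp
    · rw [Ok_iff hi]
      have := dl_le c
      push_cast
      omega
  | m3 c =>
    obtain ⟨w1, rfl, h1⟩ := h
    obtain rfl : w1 = [] := h1
    exact ⟨hi.1, 0, 0, rfl, hi.2⟩
  | m4 c =>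
    obtain ⟨w1, rfl, w2, rfl, h1⟩ := h
    obtain rfl : w2 = [] := h1
    exact ⟨hi.1, 1, 0, rfl, hi.2⟩
  | m5 c =>
    obtain ⟨w1, rfl, w2, rfl, h1⟩ := h
    obtain rfl : w2 = [] := h1
    exact ⟨hi.1, 0, 1, rfl, hi.2⟩
  | sb t =>
    obtain ⟨u, w1, rfl, ⟨k1, h1⟩, w2, rfl, v, w3, rfl, ⟨k2, h2⟩, w4, rfl, w, w5, rfl, ⟨k3, h3⟩,
      h5⟩ := h
    obtain rfl : w5 = [] := h5
    rw [List.append_nil]
    exact ⟨k1 + k2 + k3, W.br _ t u v w hi (h1.mono (by omega)) (h2.mono (by omega))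
      (h3.mono (by omega))⟩

theorem der_closed (i : RI) (hi : vd i) (w : List Ga) (h : Yl (Der gr) (rl i).output w) :
    Der gr (rl i).input w :=
  complete (g := gr) ((mem_gr _).2 ⟨i, hi, rfl⟩) h

theorem der_X (n : ℕ) : Der gr NT.X (rp n) := by
  induction n with
  | zero => exact der_closed .xe trivial _ rfl
  | succ n ih =>
    rw [rp_succ]
    exact der_closed .xx trivial _ ⟨_, rfl, _, [], by simp, ih, rfl⟩

theorem der_U (w : List Ga) : Der gr NT.U w := by
  induction w with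
  | nil => exact der_closed .ue trivial _ rfl
  | cons c w ih => exact der_closed (.uc c) trivial _ ⟨_, rfl, _, [], by simp, ih, rfl⟩

theorem der_A (w : List Ga) (h : NotEnd w) : Der gr NT.A w := by
  rcases List.eq_nil_or_concat w with rfl | ⟨w, c, rfl⟩
  · exact der_closed .ae trivial _ rfl
  · have hc : c ≠ Ga.x := by
      rintro rfl
      exact h w (by simp)
    exact der_closed (.au c) hc _ ⟨w, [c], by simp, der_U w, [], rfl, rfl⟩

theorem der_B (w : List Ga) (h : NotBeg w) : Der gr NT.B w := by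
  cases w with
  | nil => exact der_closed .be trivial _ rfl
  | cons c w =>
    have hc : c ≠ Ga.x := by
      rintro rfl
      exact h w rfl
    exact der_closed (.bu c) hc _ ⟨w, rfl, w, [], by simp, der_U w, rfl⟩

theorem der_M {c : Ga} (hc : c ≠ Ga.x) (e : ℕ) : ∀ F, ¬ Ok c e F →
    Der gr (NT.M c) (rp e ++ c :: rp F) := by
  induction e with
  | zero =>
    intro F hO
    match F with
    | 0 => exact der_closed (.m3 c) ⟨hc, hO⟩ _ ⟨[], rfl, rfl⟩
    | 1 => exact der_closed (.m5 c) ⟨hc, hO⟩ _ ⟨_, rfl, [], rfl, rfl⟩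
    | F + 2 =>
      exact der_closed (.m2 c) hc _ ⟨_, rfl, rp (F + 1), by rw [rp_succ (F + 1)], rp F,
        by rw [rp_succ F], rp F, [], by simp, der_X F, rfl⟩
  | succ e ih =>
    intro F hO
    cases F with
    | succ F =>
      have hO' : ¬ Ok c e F := by
        rw [Ok_iff hc] at hO ⊢
        push_cast at hO
        omega
      have := ih F hO'
      refine der_closed (.mm c) trivial _ ⟨rp e ++ c :: rp (F + 1), by rw [rp_succ]; rfl,
        rp e ++ c :: rp F, [Ga.x], by rw [rp_succ']; simp, this, [], rfl, rfl⟩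
    | zero =>
      cases e with
      | zero => exact der_closed (.m4 c) ⟨hc, hO⟩ _ ⟨_, rfl, [], rfl, rfl⟩
      | succ e =>
        exact der_closed (.m1 c) hc _ ⟨rp (e + 1) ++ [c], by rw [rp_succ (e + 1)]; rfl,
          rp e ++ [c], by rw [rp_succ e]; rfl, rp e, [c], by simp, der_X e, [], rfl, rfl⟩

theorem der_W {b : Bool} {k : ℕ} {w : List Ga} (h : W b k w) :
    (b = false → Der gr NT.P w) ∧ Der gr NT.S w := by
  have hS : ∀ w, Der gr NT.P w → Der gr NT.S w := fun w h =>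
    der_closed .sp trivial w ⟨w, [], by simp, h, rfl⟩
  induction h with
  | nil k =>
    have := der_closed .pe trivial [] rfl
    exact ⟨fun _ => this, hS _ this⟩
  | x k w _ ih =>
    have := der_closed .px trivial (Ga.x :: w) ⟨w, rfl, w, [], by simp, ih.1 rfl, rfl⟩
    exact ⟨fun _ => this, hS _ this⟩
  | call k u v _ _ ihu ihv =>
    have := der_closed .pc trivial (Ga.op 2 :: (u ++ Ga.cl 2 :: v)) ⟨_, rfl, u, _, rfl, ihu.2, v,
      rfl, v, [], by simp, ihv.1 rfl, rfl⟩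
    exact ⟨fun _ => this, hS _ this⟩
  | lift k w _ ih => exact ⟨fun h => absurd h (by simp), ih.2⟩
  | br k t u v w ht _ _ _ ihu ihv ihw =>
    exact ⟨fun h => absurd h (by simp), der_closed (.sb t) ht _ ⟨u, _, rfl, ihu.1 rfl, _, rfl, v, _,
      rfl, ihv.2, _, rfl, w, [], by simp, ihw.1 rfl, rfl⟩⟩

theorem lng_cf : Lng.IsContextFree := by
  refine ⟨gr, ?_⟩
  ext w
  rw [ContextFreeGrammar.mem_language_iff]
  constructor
  · intro h
    have h1 := sound (g := gr) (I := In) (by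
      intro r hr w hw
      obtain ⟨i, hi, rfl⟩ := (mem_gr r).1 hr
      exact in_closed i hi w hw) (s := [nonterminal gr.initial]) (w := w) h
    obtain ⟨w1, w2, rfl, h1, h2⟩ := h1
    obtain rfl : w2 = [] := h2
    rw [List.append_nil]
    exact h1
  · intro h
    show Der gr NT.Z w
    rcases h with ⟨k, hk⟩ | ⟨α, e, c, F, β, rfl, hα, hβ, hc, hO⟩
    · exact der_closed .zs trivial _ ⟨w, [], by simp, (der_W hk).2, rfl⟩
    · exact der_closed (.zm c) trivial _ ⟨α, rp e ++ c :: (rp F ++ β), rfl, der_A α hα,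
        rp e ++ c :: rp F, β, by simp, der_M hc e F hO, β, [], by simp, der_B β hβ, rfl⟩

end Pool.Agent.U61.NX
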