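import Pool.Agent.Helper178.GramLfp

set_option autoImplicit false

/-!
# Linear grammars, substitutions, quasi-rational languages and ranked grammars
-/

namespace Pool.Agent.U61.NX

open Symbol

/-- A linear rule: the right-hand side contains at most one nonterminal. -/
def LinearRule {Y N : Type} (r : ContextFreeRule Y N) : Prop :=
  (∃ u : List Y, r.output = u.map terminal) ∨
    ∃ (u : List Y) (A : N) (v : List Y), r.output = u.map terminal ++ nonterminal A :: v.map terminal

/-- A linear language is generated by a context-free grammar with linear rules. -/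
def Linear {Y : Type} (L : Language Y) : Prop :=
  ∃ g : ContextFreeGrammar Y, (∀ r ∈ g.rules, LinearRule r) ∧ g.language = L

/-- The substitution `σ` applied to the language `L`: every letter `x` of a word of `L` is replaced
by some word of `σ x`. -/
def subst {X Y : Type} (L : Language X) (σ : X → Language Y) : Language Y :=
  {w | ∃ u ∈ L, ∃ vs : List (List Y), List.Forall₂ (fun x v => v ∈ σ x) u vs ∧ w = vs.flatten}

/-- The quasi-rational languages: the smallest family of languages over finite alphabets which
contains the linear languages and is closed under substitution. -/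
inductive Qrt : (Y : Type) → Language Y → Prop
  | lin {Y : Type} [Finite Y] {L : Language Y} : Linear L → Qrt Y L
  | sub {X Y : Type} [Finite X] [Finite Y] {L : Language X} {σ : X → Language Y} :
      Qrt X L → (∀ x, Qrt Y (σ x)) → Qrt Y (subst L σ)

/-- A ranked grammar: in every rule all nonterminals of the right-hand side have at most the rank of
the left-hand side, and except at the main position they have a smaller rank. -/
structure RG (Y : Type) where
  V : Type
  R : Type
  fin : Finite R
  lhs : R → V
  rhs : R → List (Y ⊕ V)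
  rank : V → ℕ
  start : V
  main : R → ℕ
  le : ∀ (r : R) (i : ℕ) (B : V), (rhs r)[i]? = some (Sum.inr B) → rank B ≤ rank (lhs r)
  lt : ∀ (r : R) (i : ℕ) (B : V), (rhs r)[i]? = some (Sum.inr B) → i ≠ main r → rank B < rank (lhs r)

/-- The words derived from a sentential form. -/
inductive Dv {Y : Type} (G : RG Y) : List (Y ⊕ G.V) → List Y → Prop
  | nil : Dv G [] []
  | term (y : Y) (s : List (Y ⊕ G.V)) (w : List Y) : Dv G s w → Dv G (Sum.inl y :: s) (y :: w)
  | nt (r : G.R) (s : List (Y ⊕ G.V)) (u w : List Y) : Dv G (G.rhs r) u → Dv G s w →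
      Dv G (Sum.inr (G.lhs r) :: s) (u ++ w)

/-- The language of a ranked grammar. -/
def RG.lang {Y : Type} (G : RG Y) : Language Y := {w | Dv G [Sum.inr G.start] w}

theorem Dv.append {Y : Type} {G : RG Y} {s t : List (Y ⊕ G.V)} {u v : List Y} (h : Dv G s u)
    (h' : Dv G t v) : Dv G (s ++ t) (u ++ v) := by
  induction h with
  | nil => exact h'
  | term y s w _ ih => exact Dv.term y _ _ ih
  | nt r s u w h1 _ _ ih =>
    rw [List.append_assoc]
    exact Dv.nt r _ _ _ h1 ih

theorem Dv.split {Y : Type} {G : RG Y} (s : List (Y ⊕ G.V)) {t : List (Y ⊕ G.V)} :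
    ∀ {w : List Y}, Dv G (s ++ t) w → ∃ u v, w = u ++ v ∧ Dv G s u ∧ Dv G t v := by
  induction s with
  | nil => intro w h; exact ⟨[], w, rfl, Dv.nil, h⟩
  | cons c s ih =>
    intro w h
    cases h with
    | term y _ w' h =>
      obtain ⟨u, v, rfl, h1, h2⟩ := ih h
      exact ⟨y :: u, v, rfl, Dv.term y s u h1, h2⟩
    | nt r _ u' w' h1 h =>
      obtain ⟨u, v, rfl, h2, h3⟩ := ih h
      exact ⟨u' ++ u, v, by simp, Dv.nt r s u' u h1 h2, h3⟩

theorem Dv.nil_inv {Y : Type} {G : RG Y} {w : List Y} (h : Dv G [] w) : w = [] := by
  cases h with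
  | nil => rfl

/-! ### Linear languages -/

/-- A symbol as an element of a sum. -/
def ys {Y N : Type} : Symbol Y N → Y ⊕ N
  | terminal y => Sum.inl y
  | nonterminal A => Sum.inr A

theorem ys_inr {Y N : Type} {s : Symbol Y N} {B : N} (h : ys s = Sum.inr B) :
    s = nonterminal B := by
  cases s with
  | terminal y => exact absurd h (by simp [ys])
  | nonterminal A => simp only [ys, Sum.inr.injEq] at h; rw [h]

theorem linear_lt {Y N : Type} {r : ContextFreeRule Y N} (hr : LinearRule r) :
    ∃ m : ℕ, ∀ (i : ℕ) (B : N), (r.output.map ys)[i]? = some (Sum.inr B) → i = m := by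
  rcases hr with ⟨u, hu⟩ | ⟨u, A, v, hu⟩
  · refine ⟨0, fun i B h => ?_⟩
    rw [hu, List.map_map, List.getElem?_map] at h
    simp only [Option.map_eq_some_iff] at h
    obtain ⟨a, -, h⟩ := h
    exact absurd h (by simp [ys])
  · refine ⟨u.length, fun i B h => ?_⟩
    rw [hu, List.map_append, List.map_cons, List.map_map, List.map_map] at h
    by_contra hne
    rcases lt_or_gt_of_ne hne with h1 | h1
    · rw [List.getElem?_append_left (by simpa using h1), List.getElem?_map] at h
      simp only [Option.map_eq_some_iff] at h
      obtain ⟨a, -, h⟩ := h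
      exact absurd h (by simp [ys])
    · rw [List.getElem?_append_right (by simp; omega)] at h
      obtain ⟨k, hk⟩ : ∃ k, i - (List.map (ys ∘ terminal (N := N)) u).length = k + 1 :=
        ⟨i - u.length - 1, by simp; omega⟩
      rw [hk, List.getElem?_cons_succ, List.getElem?_map] at h
      simp only [Option.map_eq_some_iff] at h
      obtain ⟨a, -, h⟩ := h
      exact absurd h (by simp [ys])

open Classical in
/-- The ranked grammar of a linear grammar. -/
noncomputable def RG.ofLinear {Y : Type} (g : ContextFreeGrammar Y)
    (hg : ∀ r ∈ g.rules, LinearRule r) : RG Y where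
  V := g.NT
  R := {r // r ∈ g.rules}
  fin := inferInstance
  lhs := fun r => r.1.input
  rhs := fun r => r.1.output.map ys
  rank := fun _ => 0
  start := g.initial
  main := fun r => Classical.choose (linear_lt (hg r.1 r.2))
  le := fun _ _ _ _ => le_refl _
  lt := fun r i B h hne => absurd (Classical.choose_spec (linear_lt (hg r.1 r.2)) i B h) hne

open Pool.Agent.Helper178.Gram in
theorem RG.ofLinear_of {Y : Type} (g : ContextFreeGrammar Y)
    (hg : ∀ r ∈ g.rules, LinearRule r) (s : List (Symbol Y g.NT)) : ∀ (w : List Y),
      Yl (fun A w => Dv (RG.ofLinear g hg) [Sum.inr A] w) s w →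
      Dv (RG.ofLinear g hg) (s.map ys) w := by
  induction s with
  | nil =>
    intro w h
    obtain rfl : w = [] := h
    exact Dv.nil
  | cons a s ih =>
    intro w h
    cases a with
    | terminal t =>
      obtain ⟨w', rfl, h⟩ := h
      exact Dv.term t _ _ (ih w' h)
    | nonterminal A =>
      obtain ⟨w1, w2, rfl, h1, h2⟩ := h
      exact Dv.append h1 (ih w2 h2)

theorem map_ys_cons {Y N : Type} {c : Y ⊕ N} {s' : List (Y ⊕ N)} {s : List (Symbol Y N)}
    (h : c :: s' = s.map ys) : ∃ a t, s = a :: t ∧ ys a = c ∧ s' = t.map ys := by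
  cases s with
  | nil => simp at h
  | cons a t =>
    obtain ⟨h1, h2⟩ := List.cons.inj h
    exact ⟨a, t, rfl, h1.symm, h2⟩

open Pool.Agent.Helper178.Gram in
theorem RG.ofLinear_to {Y : Type} (g : ContextFreeGrammar Y)
    (hg : ∀ r ∈ g.rules, LinearRule r) {s' : List (Y ⊕ (RG.ofLinear g hg).V)} {w : List Y}
    (h : Dv (RG.ofLinear g hg) s' w) : ∀ s : List (Symbol Y g.NT),
      s' = s.map ys → Yl (Der g) s w := by
  induction h with
  | nil =>
    intro s hs
    obtain rfl : s = [] := List.map_eq_nil_iff.1 hs.symm
    rfl
  | term y s' w _ ih =>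
    intro s hs
    obtain ⟨a, s, rfl, ha, hs'⟩ := map_ys_cons hs
    cases a with
    | terminal t =>
      have h1 : t = y := Sum.inl.inj ha
      subst h1
      exact ⟨w, rfl, ih s hs'⟩
    | nonterminal A => exact absurd ha (fun h => Sum.inr_ne_inl h)
  | nt r s' u w _ _ ih1 ih2 =>
    intro s hs
    obtain ⟨a, s, rfl, ha, hs'⟩ := map_ys_cons hs
    obtain rfl := ys_inr ha
    exact ⟨u, w, rfl, complete r.2 (ih1 r.1.output rfl), ih2 s hs'⟩

open Pool.Agent.Helper178.Gram in
theorem RG.ofLinear_lang {Y : Type} (g : ContextFreeGrammar Y)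
    (hg : ∀ r ∈ g.rules, LinearRule r) : (RG.ofLinear g hg).lang = g.language := by
  ext w
  rw [ContextFreeGrammar.mem_language_iff]
  constructor
  · intro h
    exact der_of_yl _ _ (RG.ofLinear_to g hg h [nonterminal g.initial] rfl)
  · intro h
    have h3 := sound (g := g) (I := fun A w => Dv (RG.ofLinear g hg) [Sum.inr A] w) (by
      intro r hr w hw
      have := Dv.nt (G := RG.ofLinear g hg) ⟨r, hr⟩ [] w [] (RG.ofLinear_of g hg _ _ hw) Dv.nil
      rw [List.append_nil] at this
      exact this) (s := [nonterminal g.initial]) (w := w) h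
    exact RG.ofLinear_of g hg _ _ h3

/-! ### Substitution -/

section Subst

variable {X Y : Type} (G : RG X) (H : X → RG Y)

/-- the symbols of the outer grammar -/
def e1 : X ⊕ G.V → Y ⊕ (G.V ⊕ (Σ x, (H x).V))
  | Sum.inl x => Sum.inr (Sum.inr ⟨x, (H x).start⟩)
  | Sum.inr B => Sum.inr (Sum.inl B)

/-- the symbols of the inner grammars -/
def e2 (x : X) : Y ⊕ (H x).V → Y ⊕ (G.V ⊕ (Σ x, (H x).V))
  | Sum.inl y => Sum.inl y
  | Sum.inr B => Sum.inr (Sum.inr ⟨x, B⟩)

theorem e2_inj (x : X) : Function.Injective (e2 G H x) := by
  rintro (a | a) (b | b) h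
  · simpa [e2] using h
  · simp [e2] at h
  · simp [e2] at h
  · simpa [e2] using h

theorem e1_inj : Function.Injective (e1 G H) := by
  rintro (a | a) (b | b) h
  · simp only [e1, Sum.inr.injEq] at h
    have := congrArg Sigma.fst h
    simpa using this
  · simp [e1] at h
  · simp [e1] at h
  · simpa [e1] using h

/-- The ranked grammar of a substitution. -/
noncomputable def RG.sub [Finite X] (M : ℕ) (hM : ∀ x, (H x).rank (H x).start < M) : RG Y where
  V := G.V ⊕ (Σ x, (H x).V)
  R := G.R ⊕ (Σ x, (H x).R)
  fin := by
    have := G.fin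
    have : ∀ x, Finite (H x).R := fun x => (H x).fin
    infer_instance
  lhs := fun r => match r with
    | Sum.inl r => Sum.inl (G.lhs r)
    | Sum.inr r => Sum.inr ⟨r.1, (H r.1).lhs r.2⟩
  rhs := fun r => match r with
    | Sum.inl r => (G.rhs r).map (e1 G H)
    | Sum.inr r => ((H r.1).rhs r.2).map (e2 G H r.1)
  rank := fun v => match v with
    | Sum.inl B => G.rank B + M
    | Sum.inr B => (H B.1).rank B.2
  start := Sum.inl G.start
  main := fun r => match r with
    | Sum.inl r => G.main r
    | Sum.inr r => (H r.1).main r.2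
  le := by
    rintro (r | ⟨x, r⟩) i B h
    · simp only [List.getElem?_map, Option.map_eq_some_iff] at h
      obtain ⟨a, ha, h⟩ := h
      cases a with
      | inl x =>
        simp only [e1, Sum.inr.injEq] at h
        subst h
        exact (Nat.le_of_lt (hM x)).trans (Nat.le_add_left _ _)
      | inr C =>
        simp only [e1, Sum.inr.injEq] at h
        subst h
        exact Nat.add_le_add_right (G.le r i C ha) M
    · simp only [List.getElem?_map, Option.map_eq_some_iff] at h
      obtain ⟨a, ha, h⟩ := h
      cases a with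
      | inl y => simp [e2] at h
      | inr C =>
        simp only [e2, Sum.inr.injEq] at h
        subst h
        exact (H x).le r i C ha
  lt := by
    rintro (r | ⟨x, r⟩) i B h hne
    · simp only [List.getElem?_map, Option.map_eq_some_iff] at h
      obtain ⟨a, ha, h⟩ := h
      cases a with
      | inl x =>
        simp only [e1, Sum.inr.injEq] at h
        subst h
        exact lt_of_lt_of_le (hM x) (Nat.le_add_left _ _)
      | inr C =>
        simp only [e1, Sum.inr.injEq] at h
        subst h
        exact Nat.add_lt_add_right (G.lt r i C ha hne) M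
    · simp only [List.getElem?_map, Option.map_eq_some_iff] at h
      obtain ⟨a, ha, h⟩ := h
      cases a with
      | inl y => simp [e2] at h
      | inr C =>
        simp only [e2, Sum.inr.injEq] at h
        subst h
        exact (H x).lt r i C ha hne

variable [Finite X] {M : ℕ} (hM : ∀ x, (H x).rank (H x).start < M)

theorem RG.sub_of2 (x : X) {s : List (Y ⊕ (H x).V)} {w : List Y} (h : Dv (H x) s w) :
    Dv (RG.sub G H M hM) (s.map (e2 G H x)) w := by
  induction h with
  | nil => exact Dv.nil
  | term y s w _ ih => exact Dv.term (G := RG.sub G H M hM) y _ _ ih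
  | nt r s u w _ _ ih1 ih2 => exact Dv.nt (G := RG.sub G H M hM) (Sum.inr ⟨x, r⟩) _ _ _ ih1 ih2

theorem RG.sub_of1 {s : List (X ⊕ G.V)} {u : List X} (h : Dv G s u) : ∀ vs : List (List Y),
    List.Forall₂ (fun x v => v ∈ (H x).lang) u vs →
      Dv (RG.sub G H M hM) (s.map (e1 G H)) vs.flatten := by
  induction h with
  | nil =>
    intro vs hvs
    cases hvs
    exact Dv.nil
  | term x s w _ ih =>
    intro vs hvs
    cases hvs with
    | @cons _ v _ vs hv hvs =>
      have h1 := RG.sub_of2 G H hM x hv
      exact Dv.append h1 (ih vs hvs)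
  | nt r s u w _ _ ih1 ih2 =>
    intro vs hvs
    obtain ⟨vs1, vs2, h1, h2, rfl⟩ : ∃ vs1 vs2, List.Forall₂ (fun x v => v ∈ (H x).lang) u vs1 ∧
        List.Forall₂ (fun x v => v ∈ (H x).lang) w vs2 ∧ vs = vs1 ++ vs2 := by
      refine ⟨vs.take u.length, vs.drop u.length, ?_, ?_, (List.take_append_drop _ _).symm⟩
      · have := List.forall₂_take u.length hvs
        rwa [List.take_left'] at this
        rfl
      · have := List.forall₂_drop u.length hvs
        rwa [List.drop_left'] at this
        rfl
    rw [List.flatten_append]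
    exact Dv.nt (G := RG.sub G H M hM) (Sum.inl r) _ _ _ (ih1 vs1 h1) (ih2 vs2 h2)

theorem RG.sub_to {s' : List (Y ⊕ (RG.sub G H M hM).V)} {w : List Y}
    (h : Dv (RG.sub G H M hM) s' w) :
    (∀ x (s : List (Y ⊕ (H x).V)), s' = s.map (e2 G H x) → Dv (H x) s w) ∧
    (∀ s : List (X ⊕ G.V), s' = s.map (e1 G H) → ∃ u, Dv G s u ∧ ∃ vs : List (List Y),
      List.Forall₂ (fun x v => v ∈ (H x).lang) u vs ∧ w = vs.flatten) := by
  induction h with
  | nil =>
    constructor
    · intro x s hs
      obtain rfl : s = [] := List.map_eq_nil_iff.1 hs.symm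
      exact Dv.nil
    · intro s hs
      obtain rfl : s = [] := List.map_eq_nil_iff.1 hs.symm
      exact ⟨[], Dv.nil, [], List.Forall₂.nil, rfl⟩
  | term y s' w _ ih =>
    constructor
    · intro x s hs
      cases s with
      | nil => simp at hs
      | cons a s =>
        obtain ⟨ha, hs'⟩ := List.cons.inj hs
        cases a with
        | inl z =>
          have hyz : y = z := Sum.inl.inj ha
          subst hyz
          exact Dv.term _ _ _ (ih.1 x s hs')
        | inr B => exact absurd ha (by simp [e2])
    · intro s hs
      cases s with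
      | nil => simp at hs
      | cons a s =>
        obtain ⟨ha, hs'⟩ := List.cons.inj hs
        cases a with
        | inl z => exact absurd ha (by simp [e1])
        | inr B => exact absurd ha (by simp [e1])
  | nt r s' u w _ _ ih1 ih2 =>
    cases r with
    | inl r =>
      constructor
      · intro x s hs
        cases s with
        | nil => simp at hs
        | cons a s =>
          obtain ⟨ha, hs'⟩ := List.cons.inj hs
          cases a with
          | inl z => exact absurd ha (by simp [e2])
          | inr B => exact absurd ha (by simp [e2, RG.sub])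
      · intro s hs
        cases s with
        | nil => simp at hs
        | cons a s =>
          obtain ⟨ha, hs'⟩ := List.cons.inj hs
          cases a with
          | inl z => exact absurd ha (by simp [e1, RG.sub])
          | inr B =>
            have hB : G.lhs r = B := by simpa [e1, RG.sub] using ha
            subst hB
            obtain ⟨u1, h1, vs1, h2, rfl⟩ := ih1.2 (G.rhs r) rfl
            obtain ⟨u2, h3, vs2, h4, rfl⟩ := ih2.2 s hs'
            exact ⟨u1 ++ u2, Dv.nt r s u1 u2 h1 h3, vs1 ++ vs2, List.rel_append h2 h4, by simp⟩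
    | inr r =>
      obtain ⟨x', r⟩ := r
      constructor
      · intro x s hs
        cases s with
        | nil => simp at hs
        | cons a s =>
          obtain ⟨ha, hs'⟩ := List.cons.inj hs
          cases a with
          | inl z => exact absurd ha (by simp [e2])
          | inr B =>
            have ha' : (⟨x', (H x').lhs r⟩ : Σ x, (H x).V) = ⟨x, B⟩ := by
              simpa [e2, RG.sub] using ha
            obtain rfl : x' = x := congrArg Sigma.fst ha'
            have hB : (H x').lhs r = B := by simpa using ha'
            subst hB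
            exact Dv.nt r s u w (ih1.1 x' ((H x').rhs r) rfl) (ih2.1 x' s hs')
      · intro s hs
        cases s with
        | nil => simp at hs
        | cons a s =>
          obtain ⟨ha, hs'⟩ := List.cons.inj hs
          cases a with
          | inr B => exact absurd ha (by simp [e1, RG.sub])
          | inl z =>
            have ha' : (⟨x', (H x').lhs r⟩ : Σ x, (H x).V) = ⟨z, (H z).start⟩ := by
              simpa [e1, RG.sub] using ha
            obtain rfl : x' = z := congrArg Sigma.fst ha'
            have hB : (H x').lhs r = (H x').start := by simpa using ha'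
            obtain ⟨u2, h3, vs2, h4, rfl⟩ := ih2.2 s hs'
            have h5 : u ∈ (H x').lang := by
              have := Dv.nt r [] u [] (ih1.1 x' ((H x').rhs r) rfl) Dv.nil
              rw [hB, List.append_nil] at this
              exact this
            exact ⟨x' :: u2, Dv.term x' s u2 h3, u :: vs2, List.Forall₂.cons h5 h4, by simp⟩

theorem RG.sub_lang : (RG.sub G H M hM).lang = subst G.lang (fun x => (H x).lang) := by
  ext w
  constructor
  · intro h
    obtain ⟨u, h1, vs, h2, h3⟩ := (RG.sub_to G H hM h).2 [Sum.inr G.start] rfl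
    exact ⟨u, h1, vs, h2, h3⟩
  · rintro ⟨u, h1, vs, h2, rfl⟩
    exact RG.sub_of1 G H hM h1 vs h2

end Subst

/-- Every quasi-rational language has a ranked grammar. -/
theorem Qrt.exists_rg {Y : Type} {L : Language Y} (h : Qrt Y L) : ∃ G : RG Y, G.lang = L := by
  induction h with
  | @lin Y _ L hL =>
    obtain ⟨g, hg, rfl⟩ := hL
    exact ⟨RG.ofLinear g hg, RG.ofLinear_lang g hg⟩
  | @sub X Y _ _ L σ _ _ ih1 ih2 =>
    obtain ⟨G, rfl⟩ := ih1
    choose H hH using ih2
    obtain ⟨M, hM⟩ : ∃ M, ∀ x, (H x).rank (H x).start < M := by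
      obtain ⟨M, hM⟩ := (Set.finite_range fun x => (H x).rank (H x).start).bddAbove
      exact ⟨M + 1, fun x => Nat.lt_succ_of_le (hM ⟨x, rfl⟩)⟩
    refine ⟨RG.sub G H M hM, ?_⟩
    rw [RG.sub_lang]
    congr 1
    funext x
    exact hH x

end Pool.Agent.U61.NX
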