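import Pool.Agent.U61.NX.Defs
import Pool.Agent.U61.NX.RG
import Pool.Agent.Helper288.ConeDefs

set_option autoImplicit false

/-!
# The languages of ranked grammars are in the cone
-/

namespace Pool.Agent.U61.NX

open Pool.Agent.Helper288.Cone

/-! ### Chains of tokens -/

section Chain

variable {Z S : Type} (src dst : Z → S)

/-- A chain of tokens from `s` to `t`. -/
inductive Mp : S → List Z → S → Prop
  | nil (s : S) : Mp s [] s
  | cons (z : Z) {zs : List Z} {t : S} : Mp (dst z) zs t → Mp (src z) (z :: zs) t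

variable {src dst}

theorem Mp.append {s t r : S} {z z' : List Z} (h : Mp src dst s z t) (h' : Mp src dst t z' r) :
    Mp src dst s (z ++ z') r := by
  induction h with
  | nil s => exact h'
  | cons z _ ih => exact Mp.cons z (ih h')

theorem Mp.cons_inv {s t : S} {z : Z} {zs : List Z} (h : Mp src dst s (z :: zs) t) :
    src z = s ∧ Mp src dst (dst z) zs t := by
  cases h with
  | cons _ h => exact ⟨rfl, h⟩

theorem Mp.nil_inv {s t : S} (h : Mp src dst s [] t) : s = t := by
  cases h with
  | nil => rfl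

variable (src dst)

open Classical in
/-- The automaton of the chains of tokens. -/
noncomputable def chainDFA (s0 : S) (F : Set S) : DFA Z (Option (Option Z)) where
  step := fun q z => q.bind fun q =>
    if src z = (match q with | none => s0 | some z' => dst z') then some (some z) else none
  start := some none
  accept := {q | ∃ q', q = some q' ∧ (match q' with | none => s0 | some z' => dst z') ∈ F}

theorem chain_regular [Finite Z] (s0 : S) (F : Set S) :
    Language.IsRegular {z | ∃ t ∈ F, Mp src dst s0 z t} := by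
  classical
  have := Fintype.ofFinite Z
  refine ⟨Option (Option Z), inferInstance, chainDFA src dst s0 F, ?_⟩
  set M := chainDFA src dst s0 F with hM
  have hdead : ∀ z : List Z, M.evalFrom none z = none := by
    intro z
    induction z with
    | nil => rfl
    | cons a z ih => exact ih
  have key : ∀ (z : List Z) (q : Option Z), M.evalFrom (some q) z ∈ M.accept ↔
      ∃ t ∈ F, Mp src dst (match q with | none => s0 | some z' => dst z') z t := by
    intro z
    induction z with
    | nil =>
      intro q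
      constructor
      · rintro ⟨q', hq', h⟩
        obtain rfl : q = q' := Option.some.inj hq'
        exact ⟨_, h, Mp.nil _⟩
      · rintro ⟨t, ht, h⟩
        have h' := h.nil_inv
        exact ⟨q, rfl, h' ▸ ht⟩
    | cons a z ih =>
      intro q
      by_cases hsrc : src a = (match q with | none => s0 | some z' => dst z')
      · have h1 : M.step (some q) a = some (some a) := by
          simp only [hM, chainDFA, Option.bind_some]
          exact if_pos hsrc
        rw [show M.evalFrom (some q) (a :: z) = M.evalFrom (M.step (some q) a) z from rfl, h1, ih]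
        constructor
        · rintro ⟨t, ht, h⟩
          exact ⟨t, ht, hsrc ▸ Mp.cons a h⟩
        · rintro ⟨t, ht, h⟩
          exact ⟨t, ht, h.cons_inv.2⟩
      · have h1 : M.step (some q) a = none := by
          simp only [hM, chainDFA, Option.bind_some]
          exact if_neg hsrc
        rw [show M.evalFrom (some q) (a :: z) = M.evalFrom (M.step (some q) a) z from rfl, h1,
          hdead]
        constructor
        · rintro ⟨q', hq', -⟩
          exact absurd hq' (by simp)
        · rintro ⟨t, -, h⟩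
          exact absurd h.cons_inv.1 hsrc
  ext z
  rw [DFA.mem_accepts]
  exact key z none

end Chain

/-! ### Words with correct blocks -/

/-- `Lv a w b`: after a block of length `a`, the word `w` continues without errors, and ends with a
block of length `b`. -/
inductive Lv : ℕ → List Ga → ℕ → Prop
  | nil (a : ℕ) : Lv a [] a
  | cons {a b d : ℕ} {c : Ga} {w : List Ga} : c ≠ Ga.x → Ok c a b → Lv b w d →
      Lv a (c :: (rp b ++ w)) d

theorem Lv.append {a b d : ℕ} {u v : List Ga} (h : Lv a u b) (h' : Lv b v d) :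
    Lv a (u ++ v) d := by
  induction h with
  | nil a => exact h'
  | cons hc hO _ ih =>
    have := Lv.cons hc hO (ih h')
    simpa using this

theorem Lv.notBeg {a b : ℕ} {w : List Ga} (h : Lv a w b) : NotBeg w := by
  cases h with
  | nil => exact notBeg_nil
  | cons hc _ _ => exact notBeg_cons hc _

theorem Lv.ok {a d : ℕ} {w : List Ga} (h : Lv a w d) : ∀ {α : List Ga} {e : ℕ} {c : Ga} {F : ℕ}
    {β : List Ga}, rp a ++ w = α ++ (rp e ++ c :: (rp F ++ β)) → NotEnd α → NotBeg β → c ≠ Ga.x →
      Ok c e F := by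
  induction h with
  | nil a =>
    intro α e c F β h _ _ hc
    rw [List.append_nil] at h
    have h1 : c ∈ rp a := by rw [h]; simp
    exact absurd (List.eq_of_mem_replicate h1) hc
  | @cons a b d c1 w hc1 hO h ih =>
    intro α e c F β heq hα hβ hc
    rcases List.append_eq_append_iff.1 heq with ⟨a', h1, h2⟩ | ⟨c', h1, h2⟩
    · -- `α = rp a ++ a'`
      cases a' with
      | nil =>
        rw [List.append_nil] at h1
        rw [List.nil_append] at h2
        have ha : a = 0 := by
          cases a with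
          | zero => rfl
          | succ a => exact absurd (h1.trans (rp_succ' a)) (hα _)
        subst ha
        have h3 : rp e ++ c :: (rp F ++ β) = rp 0 ++ c1 :: (rp b ++ w) := by
          rw [← h2]; rfl
        obtain ⟨rfl, h4⟩ := rp_append_inj (notBeg_cons hc _) (notBeg_cons hc1 _) h3
        obtain ⟨rfl, h5⟩ := List.cons.inj h4
        obtain ⟨rfl, -⟩ := rp_append_inj hβ h.notBeg h5
        exact hO
      | cons b' a' =>
        obtain ⟨rfl, h3⟩ := List.cons.inj h2
        refine ih h3 ?_ hβ hc
        rintro α' rfl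
        exact hα (rp a ++ c1 :: α') (by rw [h1]; simp)
    · -- `rp a = α ++ c'`
      have hα0 : α = [] := by
        rcases List.eq_nil_or_concat α with rfl | ⟨α', b', rfl⟩
        · rfl
        · exfalso
          have h3 : b' ∈ rp a := by rw [h1]; simp
          obtain rfl := List.eq_of_mem_replicate h3
          exact hα α' (by simp)
      subst hα0
      rw [List.nil_append] at h1
      rw [← h1] at h2
      obtain ⟨rfl, h4⟩ := rp_append_inj (notBeg_cons hc _) (notBeg_cons hc1 _) h2
      obtain ⟨rfl, h5⟩ := List.cons.inj h4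
      obtain ⟨rfl, -⟩ := rp_append_inj hβ h.notBeg h5
      exact hO

theorem Lv.not_err {b : ℕ} {w : List Ga} (h : Lv 0 w b) : ¬ Err w := by
  rintro ⟨α, e, c, F, β, rfl, hα, hβ, hc, hO⟩
  exact hO (h.ok (α := α) (e := e) (c := c) (F := F) (β := β) rfl hα hβ hc)

/-! ### Codes -/

/-- A bracket followed by its block. -/
def bk (c : Ga) (a : ℕ) : List Ga := c :: rp a

/-- `j` copies of a bracket followed by its block. -/
def bks (c : Ga) (a j : ℕ) : List Ga := (List.replicate j (bk c a)).flatten

/-- The code of `j` in opening brackets. -/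
def opc (a j : ℕ) : List Ga := bk (Ga.op 1) a ++ (bks (Ga.op 0) a j ++ bk (Ga.op 1) a)

/-- The code of `j` in closing brackets. -/
def clc (a j : ℕ) : List Ga := bk (Ga.cl 1) a ++ (bks (Ga.cl 0) a j ++ bk (Ga.cl 1) a)

/-- The code of `j` on the stack. -/
def sc (j : ℕ) : List (Fin 3) := 1 :: (List.replicate j 0 ++ [1])

theorem bks_succ (c : Ga) (a j : ℕ) : bks c a (j + 1) = bk c a ++ bks c a j := by
  simp [bks, List.replicate_succ]

theorem bks_succ' (c : Ga) (a j : ℕ) : bks c a (j + 1) = bks c a j ++ bk c a := by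
  simp [bks, List.replicate_succ']

theorem Lv.bk {c : Ga} (hc : c ≠ Ga.x) {a b : ℕ} (hO : Ok c a b) : Lv a (bk c b) b := by
  have := Lv.cons hc hO (Lv.nil b)
  simpa [NX.bk] using this

theorem Lv.bks {c : Ga} (hc : c ≠ Ga.x) {a : ℕ} (hO : Ok c a a) (j : ℕ) :
    Lv a (bks c a j) a := by
  induction j with
  | zero => exact Lv.nil a
  | succ j ih => rw [bks_succ]; exact (Lv.bk hc hO).append ih

theorem Lv.opc (a j : ℕ) : Lv a (opc a j) a :=
  (Lv.bk (by simp) (by simp [Ok])).append ((Lv.bks (by simp) (by simp [Ok]) j).append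
    (Lv.bk (by simp) (by simp [Ok])))

theorem Lv.clc (a j : ℕ) : Lv a (clc a j) a :=
  (Lv.bk (by simp) (by simp [Ok])).append ((Lv.bks (by simp) (by simp [Ok]) j).append
    (Lv.bk (by simp) (by simp [Ok])))

theorem run_bk_op (i : Fin 3) (a : ℕ) (s : List (Fin 3)) :
    run (bk (Ga.op i) a) s = some (i :: s) := run_rp a _

theorem run_bk_cl {i : Fin 3} {a : ℕ} {s t : List (Fin 3)} (h : run (bk (Ga.cl i) a) s = some t) :
    s = i :: t := by
  cases s with
  | nil => simp [bk, run] at h
  | cons j s =>
    simp only [bk, run] at h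
    split at h
    · rename_i hij
      rw [run_rp] at h
      rw [hij, Option.some.inj h]
    · simp at h

theorem run_bks_op (i : Fin 3) (a j : ℕ) : ∀ s : List (Fin 3),
    run (bks (Ga.op i) a j) s = some (List.replicate j i ++ s) := by
  induction j with
  | zero => intro s; rfl
  | succ j ih =>
    intro s
    rw [bks_succ, run_append, run_bk_op, Option.bind_some, ih, List.replicate_succ']
    simp

theorem run_bks_cl {i : Fin 3} {a j : ℕ} : ∀ {s t : List (Fin 3)},
    run (bks (Ga.cl i) a j) s = some t → s = List.replicate j i ++ t := by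
  induction j with
  | zero => intro s t h; exact Option.some.inj h
  | succ j ih =>
    intro s t h
    rw [bks_succ, run_append] at h
    obtain ⟨r, h1, h2⟩ := Option.bind_eq_some_iff.1 h
    rw [run_bk_cl h1, ih h2]
    simp [List.replicate_succ]

theorem run_opc (a j : ℕ) (s : List (Fin 3)) : run (opc a j) s = some (sc j ++ s) := by
  rw [opc, run_append, run_bk_op, Option.bind_some, run_append, run_bks_op, Option.bind_some,
    run_bk_op]
  simp [sc]

theorem run_clc {a j : ℕ} {s t : List (Fin 3)} (h : run (clc a j) s = some t) :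
    s = sc j ++ t := by
  rw [clc, run_append] at h
  obtain ⟨r, h1, h2⟩ := Option.bind_eq_some_iff.1 h
  rw [run_append] at h2
  obtain ⟨r', h3, h4⟩ := Option.bind_eq_some_iff.1 h2
  rw [run_bk_cl h1, run_bks_cl h3, run_bk_cl h4]
  simp [sc]

theorem sc_inj {i j : ℕ} {s t : List (Fin 3)} (h : sc i ++ s = sc j ++ t) : i = j ∧ s = t := by
  have h1 : List.replicate i (0 : Fin 3) ++ (1 :: s) = List.replicate j (0 : Fin 3) ++ (1 :: t) := by
    simpa [sc] using h
  clear h
  induction i generalizing j with
  | zero =>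
    cases j with
    | zero => exact ⟨rfl, by simpa using h1⟩
    | succ j => simp [List.replicate_succ] at h1
  | succ i ih =>
    cases j with
    | zero => simp [List.replicate_succ] at h1
    | succ j =>
      have := ih (j := j) (by simpa [List.replicate_succ] using h1)
      exact ⟨by omega, this.2⟩

/-- A structured word inside of a pair of brackets with their blocks. -/
theorem W.bk {k : ℕ} {w : List Ga} (h : W true k w) (t : Fin 3) (ht : t ≠ 2) (a b : ℕ) :
    W true k (bk (Ga.op t) a ++ (w ++ bk (Ga.cl t) b)) := by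
  have := W.br k t [] (NX.rp a ++ w) (NX.rp b) ht (W.nil k) ((W.rp k a).app_left h) (W.rp k b)
  simpa [NX.bk] using this

theorem W.bks {k : ℕ} (t : Fin 3) (ht : t ≠ 2) (a b j : ℕ) : ∀ {w : List Ga}, W true k w →
    W true k (bks (Ga.op t) a j ++ (w ++ bks (Ga.cl t) b j)) := by
  induction j with
  | zero => intro w h; simpa [NX.bks] using h
  | succ j ih =>
    intro w h
    have := ih (h.bk t ht a b)
    rw [bks_succ', bks_succ]
    simpa using this

theorem W.code {k : ℕ} {w : List Ga} (h : W true k w) (a b j : ℕ) :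
    W true k (opc a j ++ (w ++ clc b j)) := by
  have := ((h.bk 1 (by decide) a b).bks 0 (by decide) a b j).bk 1 (by decide) a b
  simpa [opc, clc] using this

/-! ### The tokens -/

section Tok

variable {Y : Type} (G : RG Y)

/-- The tokens: the start with a rule, reading a terminal, the call of a rule, and the return. -/
inductive Tk (G : RG Y)
  | st (r : G.R)
  | tm (a : ℕ) (r : G.R) (i : ℕ) (y : Y)
  | ca (a : ℕ) (r : G.R) (i : ℕ) (r' : G.R)
  | re (a : ℕ) (r : G.R) (i : ℕ) (r' : G.R)

/-- The states: none at the beginning, otherwise the level, the rule and the position. -/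
abbrev Sta (G : RG Y) := Option (ℕ × G.R × ℕ)

/-- The state before a token. -/
def Tk.src {G : RG Y} : Tk G → Sta G
  | .st _ => none
  | .tm a r i _ => some (a, r, i)
  | .ca a r i _ => some (a, r, i)
  | .re a r i r' => some (if i = G.main r then a else a + 1, r', (G.rhs r').length)

/-- The state after a token. -/
def Tk.dst {G : RG Y} : Tk G → Sta G
  | .st r => some (0, r, 0)
  | .tm a r i _ => some (a, r, i + 1)
  | .ca a r i r' => some (if i = G.main r then a else a + 1, r', 0)
  | .re a r i _ => some (a, r, i + 1)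

/-- The input of a token. -/
def Tk.inp {G : RG Y} (ix : G.R × ℕ → ℕ) : Tk G → List Ga
  | .st _ => []
  | .tm _ _ _ _ => []
  | .ca a r i _ => if i = G.main r then opc a (ix (r, i)) else
      bk (Ga.op 2) (a + 1) ++ opc (a + 1) (ix (r, i))
  | .re a r i _ => if i = G.main r then clc a (ix (r, i)) else
      clc (a + 1) (ix (r, i)) ++ bk (Ga.cl 2) a

/-- The output of a token. -/
def Tk.out {G : RG Y} : Tk G → List Y
  | .tm _ _ _ y => [y]
  | _ => []

/-- The tokens which are used. -/
def Tk.ok {G : RG Y} (K : ℕ) : Tk G → Prop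
  | .st r => G.lhs r = G.start
  | .tm a r i y => a ≤ K ∧ (G.rhs r)[i]? = some (Sum.inl y)
  | .ca a r i r' => a ≤ K ∧ (G.rhs r)[i]? = some (Sum.inr (G.lhs r'))
  | .re a r i r' => a ≤ K ∧ (G.rhs r)[i]? = some (Sum.inr (G.lhs r'))

theorem finite_tk (K : ℕ) : Finite {z : Tk G // z.ok K} := by
  have := G.fin
  have hB : ∃ B : ℕ, ∀ (r : G.R) (i : ℕ) (c : Y ⊕ G.V), (G.rhs r)[i]? = some c → i < B := by
    obtain ⟨M, hM⟩ := (Set.finite_range fun r => (G.rhs r).length).bddAbove
    refine ⟨M, fun r i c h => ?_⟩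
    have h1 : (G.rhs r).length ≤ M := hM ⟨r, rfl⟩
    have h2 := (List.getElem?_eq_some_iff.1 h).1
    omega
  obtain ⟨B, hB⟩ := hB
  have hfin : Finite (G.R ⊕ (Fin (K + 1) × G.R × Fin B) ⊕ (Fin (K + 1) × G.R × Fin B × G.R) ⊕
    (Fin (K + 1) × G.R × Fin B × G.R)) := inferInstance
  have hsurj : ∀ z : {z : Tk G // z.ok K}, ∃ c : (G.R ⊕ (Fin (K + 1) × G.R × Fin B) ⊕
      (Fin (K + 1) × G.R × Fin B × G.R) ⊕ (Fin (K + 1) × G.R × Fin B × G.R)),
      match c with
      | .inl r => z.1 = .st r
      | .inr (.inl (a, r, i)) => ∃ y, z.1 = .tm a r i y ∧ (G.rhs r)[(i : ℕ)]? = some (Sum.inl y)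
      | .inr (.inr (.inl (a, r, i, r'))) => z.1 = .ca a r i r'
      | .inr (.inr (.inr (a, r, i, r'))) => z.1 = .re a r i r' := by
    rintro ⟨z, hz⟩
    cases z with
    | st r => exact ⟨.inl r, rfl⟩
    | tm a r i y =>
      exact ⟨.inr (.inl (⟨a, Nat.lt_succ_of_le hz.1⟩, r, ⟨i, hB r i _ hz.2⟩)), y, rfl, hz.2⟩
    | ca a r i r' =>
      exact ⟨.inr (.inr (.inl (⟨a, Nat.lt_succ_of_le hz.1⟩, r, ⟨i, hB r i _ hz.2⟩, r'))), rfl⟩
    | re a r i r' =>
      exact ⟨.inr (.inr (.inr (⟨a, Nat.lt_succ_of_le hz.1⟩, r, ⟨i, hB r i _ hz.2⟩, r'))), rfl⟩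
  choose f hf using hsurj
  refine Finite.of_injective f ?_
  intro z z' h
  have h1 := hf z
  have h2 := hf z'
  rw [← h] at h2
  apply Subtype.ext
  generalize f z = c at h1 h2
  match c with
  | .inl r => rw [h1, h2]
  | .inr (.inl (a, r, i)) =>
    obtain ⟨y, h1, h3⟩ := h1
    obtain ⟨y', h2, h4⟩ := h2
    rw [h3] at h4
    rw [h1, h2, Sum.inl.inj (Option.some.inj h4)]
  | .inr (.inr (.inl (a, r, i, r'))) => rw [h1, h2]
  | .inr (.inr (.inr (a, r, i, r'))) => rw [h1, h2]

/-! ### The simulation -/

/-- The level of a state. -/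
def lvl {G : RG Y} : Sta G → ℕ
  | none => 0
  | some (a, _, _) => a

theorem Tk.lv (ix : G.R × ℕ → ℕ) (z : Tk G) : Lv (lvl z.src) (z.inp ix) (lvl z.dst) := by
  cases z with
  | st r => exact Lv.nil 0
  | tm a r i y => exact Lv.nil a
  | ca a r i r' =>
    by_cases hi : i = G.main r
    · simp only [Tk.src, Tk.dst, Tk.inp, lvl, if_pos hi]
      exact Lv.opc a _
    · simp only [Tk.src, Tk.dst, Tk.inp, lvl, if_neg hi]
      exact (Lv.bk (by simp) (by simp [Ok])).append (Lv.opc (a + 1) _)
  | re a r i r' =>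
    by_cases hi : i = G.main r
    · simp only [Tk.src, Tk.dst, Tk.inp, lvl, if_pos hi]
      exact Lv.clc a _
    · simp only [Tk.src, Tk.dst, Tk.inp, lvl, if_neg hi]
      exact (Lv.clc (a + 1) _).append (Lv.bk (by simp) (by simp [Ok]))

/-- The type of the tokens which are used. -/
abbrev Zt (K : ℕ) := {z : Tk G // z.ok K}

/-- The chains of tokens. -/
abbrev Ch (K : ℕ) (s : Sta G) (zs : List (Zt G K)) (t : Sta G) : Prop :=
  Mp (fun z : Zt G K => z.1.src) (fun z => z.1.dst) s zs t

/-- The input of a list of tokens. -/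
abbrev inps (ix : G.R × ℕ → ℕ) {K : ℕ} (zs : List (Zt G K)) : List Ga :=
  zs.flatMap fun z => z.1.inp ix

/-- The output of a list of tokens. -/
abbrev outs {K : ℕ} (zs : List (Zt G K)) : List Y :=
  zs.flatMap fun z => z.1.out

theorem Ch.lv {K : ℕ} (ix : G.R × ℕ → ℕ) {s t : Sta G} {zs : List (Zt G K)}
    (h : Ch G K s zs t) : Lv (lvl s) (inps G ix zs) (lvl t) := by
  induction h with
  | nil s => exact Lv.nil _
  | cons z _ ih => exact (Tk.lv G ix z.1).append ih

/-- The sentential form of a state and a list of frames. -/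
def sf (r : G.R) (i : ℕ) (fs : List (G.R × ℕ)) : List (Y ⊕ G.V) :=
  (G.rhs r).drop i ++ fs.flatMap fun f => (G.rhs f.1).drop (f.2 + 1)

/-- The stack of a list of frames. -/
def enc (ix : G.R × ℕ → ℕ) : List (G.R × ℕ) → List (Fin 3)
  | [] => []
  | f :: fs => sc (ix f) ++ ((if f.2 = G.main f.1 then [] else [2]) ++ enc ix fs)

/-- The final states. -/
def fnl : Set (Sta G) := {t | ∃ a r, t = some (a, r, (G.rhs r).length)}

theorem drop_eq {α : Type} {l : List α} {i : ℕ} {c : α} (h : l[i]? = some c) :
    l.drop i = c :: l.drop (i + 1) := by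
  obtain ⟨h1, h2⟩ := List.getElem?_eq_some_iff.1 h
  rw [List.drop_eq_getElem_cons h1, h2]

theorem Dv.inr_inv {G : RG Y} {A : G.V} {s : List (Y ⊕ G.V)} {w : List Y}
    (h : Dv G (Sum.inr A :: s) w) : ∃ r u v, G.lhs r = A ∧ w = u ++ v ∧ Dv G (G.rhs r) u ∧
      Dv G s v := by
  generalize hs : Sum.inr A :: s = s' at h
  cases h with
  | nil => exact absurd hs (by simp)
  | term y s w h => exact absurd (List.cons.inj hs).1 (by simp)
  | nt r s u w h1 h2 =>
    obtain ⟨h3, rfl⟩ := List.cons.inj hs
    exact ⟨r, u, w, (Sum.inr.inj h3).symm, rfl, h1, h2⟩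

theorem ch_sound {K : ℕ} {ix : G.R × ℕ → ℕ} (hix : Function.Injective ix) (zs : List (Zt G K)) :
    ∀ {a : ℕ} {r : G.R} {i : ℕ} {t : Sta G}, Ch G K (some (a, r, i)) zs t → t ∈ fnl G →
    ∀ fs, run (inps G ix zs) (enc G ix fs) = some [] → Dv G (sf G r i fs) (outs G zs) := by
  induction zs with
  | nil =>
    intro a r i t h ht fs hrun
    have h1 := h.nil_inv
    subst h1
    obtain ⟨a', r', h2⟩ := ht
    simp only [Option.some.injEq, Prod.mk.injEq] at h2
    obtain ⟨-, rfl, rfl⟩ := h2
    cases fs with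
    | nil =>
      simp only [sf, List.flatMap_nil, List.append_nil, List.drop_length]
      exact Dv.nil
    | cons f fs => simp [run, enc, sc] at hrun
  | cons z zs ih =>
    intro a r i t h ht fs hrun
    obtain ⟨h1, h2⟩ := h.cons_inv
    obtain ⟨z, hz⟩ := z
    have hrun' : (run (z.inp ix) (enc G ix fs)).bind (run (inps G ix zs)) = some [] := by
      rw [← run_append]
      exact hrun
    clear hrun
    cases z with
    | st r' => exact absurd h1 (by simp [Tk.src])
    | tm a' r' i' y =>
      simp only [Tk.src, Option.some.injEq, Prod.mk.injEq] at h1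
      obtain ⟨rfl, rfl, rfl⟩ := h1
      have h3 := ih h2 ht fs hrun'
      have h4 : sf G r' i' fs = Sum.inl y :: sf G r' (i' + 1) fs := by
        simp [sf, drop_eq hz.2]
      rw [h4]
      exact Dv.term y _ _ h3
    | ca a' r' i' r2 =>
      simp only [Tk.src, Option.some.injEq, Prod.mk.injEq] at h1
      obtain ⟨rfl, rfl, rfl⟩ := h1
      have h5 : run ((Tk.ca a' r' i' r2).inp ix) (enc G ix fs) =
          some (enc G ix ((r', i') :: fs)) := by
        by_cases hi : i' = G.main r'
        · simp only [Tk.inp, enc, if_pos hi]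
          rw [run_opc]
          rfl
        · simp only [Tk.inp, enc, if_neg hi]
          rw [run_append, run_bk_op, Option.bind_some, run_opc]
          rfl
      rw [h5, Option.bind_some] at hrun'
      have h3 := ih h2 ht _ hrun'
      have h4 : sf G r2 0 ((r', i') :: fs) = G.rhs r2 ++ sf G r' (i' + 1) fs := by
        simp [sf]
      rw [h4] at h3
      obtain ⟨u, v, h6, h7, h8⟩ := Dv.split _ h3
      have h9 : sf G r' i' fs = Sum.inr (G.lhs r2) :: sf G r' (i' + 1) fs := by
        simp [sf, drop_eq hz.2]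
      rw [h9]
      have h10 : outs G (⟨Tk.ca a' r' i' r2, hz⟩ :: zs) = u ++ v := h6
      rw [h10]
      exact Dv.nt r2 _ _ _ h7 h8
    | re a' r' i' r2 =>
      simp only [Tk.src, Option.some.injEq, Prod.mk.injEq] at h1
      obtain ⟨-, rfl, rfl⟩ := h1
      obtain ⟨s, h3, h4⟩ := Option.bind_eq_some_iff.1 hrun'
      have h5 : ∃ fs', fs = (r', i') :: fs' ∧ s = enc G ix fs' := by
        have h6 : enc G ix fs = sc (ix (r', i')) ++ ((if i' = G.main r' then [] else [2]) ++ s) := by
          by_cases hi : i' = G.main r'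
          · simp only [Tk.inp, if_pos hi] at h3 ⊢
            exact run_clc h3
          · simp only [Tk.inp, if_neg hi] at h3 ⊢
            rw [run_append] at h3
            obtain ⟨s', h7, h8⟩ := Option.bind_eq_some_iff.1 h3
            rw [run_clc h7, run_bk_cl h8]
            rfl
        cases fs with
        | nil => simp [enc, sc] at h6
        | cons f fs' =>
          simp only [enc] at h6
          obtain ⟨h7, h8⟩ := sc_inj h6
          have h9 := hix h7
          subst h9
          exact ⟨fs', rfl, (List.append_cancel_left h8).symm⟩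
      obtain ⟨fs', rfl, rfl⟩ := h5
      have h6 := ih h2 ht fs' h4
      have h7 : sf G r2 (G.rhs r2).length ((r', i') :: fs') = sf G r' (i' + 1) fs' := by
        simp [sf]
      rw [h7]
      exact h6

theorem ch_complete {K : ℕ} (ix : G.R × ℕ → ℕ) {s : List (Y ⊕ G.V)} {v : List Y}
    (h : Dv G s v) : ∀ (r : G.R) (i a : ℕ), s = (G.rhs r).drop i → i ≤ (G.rhs r).length →
      a + G.rank (G.lhs r) ≤ K → ∃ zs : List (Zt G K),
        Ch G K (some (a, r, i)) zs (some (a, r, (G.rhs r).length)) ∧ outs G zs = v ∧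
        ∃ k, W true k (inps G ix zs) ∧ (G.main r < i → W false k (inps G ix zs)) := by
  induction h with
  | nil =>
    intro r i a hs hi _
    have h1 : i = (G.rhs r).length := by
      have := congrArg List.length hs
      simp at this
      omega
    subst h1
    exact ⟨[], Mp.nil _, rfl, 0, W.lift _ _ (W.nil _), fun _ => W.nil _⟩
  | term y s w _ ih =>
    intro r i a hs hi ha
    have hlt : i < (G.rhs r).length := by
      by_contra hge
      rw [List.drop_eq_nil_of_le (by omega)] at hs
      exact absurd hs (by simp)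
    have h1 : (G.rhs r)[i]? = some (Sum.inl y) ∧ s = (G.rhs r).drop (i + 1) := by
      rw [List.drop_eq_getElem_cons hlt] at hs
      obtain ⟨h2, h3⟩ := List.cons.inj hs
      exact ⟨by rw [List.getElem?_eq_getElem hlt, ← h2], h3⟩
    obtain ⟨zs, h2, h3, k, h4, h5⟩ := ih r (i + 1) a h1.2 hlt ha
    have hz : (Tk.tm a r i y : Tk G).ok K := ⟨by omega, h1.1⟩
    refine ⟨⟨Tk.tm a r i y, hz⟩ :: zs, Mp.cons (src := fun z : Zt G K => z.1.src)
      (⟨Tk.tm a r i y, hz⟩ : Zt G K) h2, ?_, k, h4, fun h => h5 (by omega)⟩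
    simp [outs, Tk.out, ← h3]
  | nt r' s u w _ _ ih1 ih2 =>
    intro r i a hs hi ha
    have hlt : i < (G.rhs r).length := by
      by_contra hge
      rw [List.drop_eq_nil_of_le (by omega)] at hs
      exact absurd hs (by simp)
    have h1 : (G.rhs r)[i]? = some (Sum.inr (G.lhs r')) ∧ s = (G.rhs r).drop (i + 1) := by
      rw [List.drop_eq_getElem_cons hlt] at hs
      obtain ⟨h2, h3⟩ := List.cons.inj hs
      exact ⟨by rw [List.getElem?_eq_getElem hlt, ← h2], h3⟩
    obtain ⟨zs2, h2, h3, k2, h4, h5⟩ := ih2 r (i + 1) a h1.2 hlt ha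
    have hca : (Tk.ca a r i r' : Tk G).ok K := ⟨by omega, h1.1⟩
    have hre : (Tk.re a r i r' : Tk G).ok K := ⟨by omega, h1.1⟩
    have hle := G.le r i _ h1.1
    have hltr := G.lt r i _ h1.1
    by_cases him : i = G.main r
    · obtain ⟨zs1, h6, h7, k1, h8, -⟩ := ih1 r' 0 a rfl (Nat.zero_le _) (by omega)
      refine ⟨⟨Tk.ca a r i r', hca⟩ :: (zs1 ++ ⟨Tk.re a r i r', hre⟩ :: zs2), ?_, ?_, k1 + k2, ?_, ?_⟩
      · refine Mp.cons (src := fun z : Zt G K => z.1.src) (⟨Tk.ca a r i r', hca⟩ : Zt G K) ?_
        simp only [Tk.dst, if_pos him]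
        refine Mp.append h6 ?_
        have := Mp.cons (src := fun z : Zt G K => z.1.src) (dst := fun z : Zt G K => z.1.dst)
          (⟨Tk.re a r i r', hre⟩ : Zt G K) h2
        simpa only [Tk.src, Tk.dst, if_pos him] using this
      · simp [outs, Tk.out, ← h3, ← h7]
      · have h9 : inps G ix (⟨Tk.ca a r i r', hca⟩ :: (zs1 ++ ⟨Tk.re a r i r', hre⟩ :: zs2)) =
            (opc a (ix (r, i)) ++ (inps G ix zs1 ++ clc a (ix (r, i)))) ++ inps G ix zs2 := by
          simp [inps, Tk.inp, him]
        rw [h9]
        exact ((h8.mono (Nat.le_add_right _ _)).code a a _).app_right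
          ((h5 (by omega)).mono (Nat.le_add_left _ _))
      · intro h; omega
    · obtain ⟨zs1, h6, h7, k1, h8, -⟩ := ih1 r' 0 (a + 1) rfl (Nat.zero_le _)
        (by have := hltr him; omega)
      have h9 : inps G ix (⟨Tk.ca a r i r', hca⟩ :: (zs1 ++ ⟨Tk.re a r i r', hre⟩ :: zs2)) =
          (Ga.op 2 :: ((rp (a + 1) ++ (opc (a + 1) (ix (r, i)) ++ (inps G ix zs1 ++
            clc (a + 1) (ix (r, i))))) ++ Ga.cl 2 :: rp a)) ++ inps G ix zs2 := by
        simp [inps, Tk.inp, him, bk]
      have h10 : W false (k1 + k2 + 1) (Ga.op 2 :: ((rp (a + 1) ++ (opc (a + 1) (ix (r, i)) ++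
          (inps G ix zs1 ++ clc (a + 1) (ix (r, i))))) ++ Ga.cl 2 :: rp a)) :=
        W.call _ _ _ ((W.rp _ _).app_left ((h8.mono (by omega)).code _ _ _)) (W.rp _ _)
      refine ⟨⟨Tk.ca a r i r', hca⟩ :: (zs1 ++ ⟨Tk.re a r i r', hre⟩ :: zs2), ?_, ?_, k1 + k2 + 1,
        ?_, ?_⟩
      · refine Mp.cons (src := fun z : Zt G K => z.1.src) (⟨Tk.ca a r i r', hca⟩ : Zt G K) ?_
        simp only [Tk.dst, if_neg him]
        refine Mp.append h6 ?_
        have := Mp.cons (src := fun z : Zt G K => z.1.src) (dst := fun z : Zt G K => z.1.dst)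
          (⟨Tk.re a r i r', hre⟩ : Zt G K) h2
        simpa only [Tk.src, Tk.dst, if_neg him] using this
      · simp [outs, Tk.out, ← h3, ← h7]
      · rw [h9]
        exact h10.app_left (h4.mono (by omega))
      · intro h
        rw [h9]
        exact h10.app_false rfl ((h5 (by omega)).mono (by omega))

/-- The language of a ranked grammar is in the cone of the language. -/
theorem RG.inCone : InCone Lng G.lang := by
  have hR := G.fin
  obtain ⟨ix, hix⟩ : ∃ ix : G.R × ℕ → ℕ, Function.Injective ix := by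
    have : Countable G.R := Finite.to_countable
    exact exists_injective_nat (G.R × ℕ)
  set K := G.rank G.start with hK
  have := finite_tk G K
  refine ⟨Zt G K, Fintype.ofFinite _, fun z => z.1.inp ix, fun z => z.1.out,
    {z | ∃ t ∈ fnl G, Ch G K none z t},
    chain_regular (fun z : Zt G K => z.1.src) (fun z => z.1.dst) none (fnl G), ?_⟩
  ext v
  constructor
  · intro h
    obtain ⟨r, u, w, hr, rfl, h1, h2⟩ := Dv.inr_inv h
    obtain rfl := h2.nil_inv
    rw [List.append_nil]
    obtain ⟨zs, h3, h4, k, h5, -⟩ := ch_complete G (K := K) ix h1 r 0 0 rfl (Nat.zero_le _)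
      (by rw [hr]; omega)
    have hst : (Tk.st r : Tk G).ok K := hr
    refine ⟨⟨Tk.st r, hst⟩ :: zs, ⟨_, ⟨0, r, rfl⟩, Mp.cons (src := fun z : Zt G K => z.1.src)
      (⟨Tk.st r, hst⟩ : Zt G K) h3⟩, Or.inl ⟨k, h5⟩, ?_⟩
    rw [← h4]
    rfl
  · rintro ⟨z, ⟨t, ht, h⟩, hL, rfl⟩
    cases z with
    | nil =>
      have := h.nil_inv
      subst this
      obtain ⟨a, r, h⟩ := ht
      exact absurd h (by simp)
    | cons z zs =>
      obtain ⟨h1, h2⟩ := h.cons_inv
      obtain ⟨z, hz⟩ := z
      cases z with
      | st r =>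
        have h3 : Lv 0 (inps G ix zs) (lvl t) := Ch.lv G ix h2
        rcases hL with ⟨k, hk⟩ | hE
        · have h4 : W true k (inps G ix zs) := hk
          have h5 := ch_sound G hix zs h2 ht [] (h4.run_eq [])
          have h6 : sf G r 0 [] = G.rhs r := by simp [sf]
          rw [h6] at h5
          have h7 := Dv.nt r [] _ [] h5 Dv.nil
          rw [List.append_nil, show G.lhs r = G.start from hz] at h7
          exact h7
        · exact absurd hE h3.not_err
      | tm a r i y => exact absurd h1 (by simp [Tk.src])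
      | ca a r i r' => exact absurd h1 (by simp [Tk.src])
      | re a r i r' => exact absurd h1 (by simp [Tk.src])

end Tok

/-- All quasi-rational languages are in the cone of the language. -/
theorem Qrt.inCone {Y : Type} {L : Language Y} (h : Qrt Y L) : InCone Lng L := by
  obtain ⟨G, rfl⟩ := h.exists_rg
  exact G.inCone

end Pool.Agent.U61.NX
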