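import Mathlib

set_option autoImplicit false

/-!
# A context-free language above all quasi-rational languages: definitions

The alphabet consists of a counting letter `x` and of three pairs of brackets. The brackets `0` and
`1` are the brackets of the same level, the brackets `2` lead to the next level. Every word is
written uniquely in the form `x^{e_0} c_1 x^{e_1} c_2 ⋯ c_m x^{e_m}` with brackets `c_i`.
-/

namespace Pool.Agent.U61.NX

/-- The alphabet. -/
inductive Ga
  | x
  | op (i : Fin 3)
  | cl (i : Fin 3)
  deriving DecidableEq, Fintype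

/-- The structured words. `W true k` are the words with at most one bracket pair of type `0` or `1`
in each list of siblings, `W false k` those of them without such a bracket pair at the top; `k`
bounds the depth of the nesting of the brackets of type `2`, and `x` may be inserted everywhere. -/
inductive W : Bool → ℕ → List Ga → Prop
  | nil (k : ℕ) : W false k []
  | x (k : ℕ) (w : List Ga) : W false k w → W false k (Ga.x :: w)
  | call (k : ℕ) (u v : List Ga) : W true k u → W false (k + 1) v →
      W false (k + 1) (Ga.op 2 :: (u ++ Ga.cl 2 :: v))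
  | lift (k : ℕ) (w : List Ga) : W false k w → W true k w
  | br (k : ℕ) (t : Fin 3) (u v w : List Ga) : t ≠ 2 → W false k u → W true k v → W false k w →
      W true k (u ++ Ga.op t :: (v ++ Ga.cl t :: w))

/-- The relation between the lengths `e`, `E` of the blocks of letters `x` before and after the
bracket `c`: the opening bracket `2` increases the length by one, the closing bracket `2` decreases
it by one, the other brackets keep it. -/
def Ok (c : Ga) (e E : ℕ) : Prop :=
  match c with
  | .x => True
  | .op i => E = e + (if i = 2 then 1 else 0)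
  | .cl i => e = E + (if i = 2 then 1 else 0)

/-- A block of letters `x`. -/
def rp (n : ℕ) : List Ga := List.replicate n Ga.x

/-- The word does not end with `x`. -/
def NotEnd (α : List Ga) : Prop := ∀ α', α ≠ α' ++ [Ga.x]

/-- The word does not begin with `x`. -/
def NotBeg (β : List Ga) : Prop := ∀ β', β ≠ Ga.x :: β'

/-- The word has an error: two neighbouring blocks whose lengths are not in the relation `Ok`. -/
def Err (w : List Ga) : Prop :=
  ∃ α e c E β, w = α ++ (rp e ++ c :: (rp E ++ β)) ∧ NotEnd α ∧ NotBeg β ∧ c ≠ Ga.x ∧ ¬ Ok c e E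

/-- The language: the structured words and the words with an error. -/
def Lng : Language Ga := {w | (∃ k, W true k w) ∨ Err w}

theorem mem_Lng (w : List Ga) : w ∈ Lng ↔ (∃ k, W true k w) ∨ Err w := Iff.rfl

/-! ### Structured words -/

theorem W.mono {b : Bool} {k : ℕ} {w : List Ga} (h : W b k w) : ∀ {k' : ℕ}, k ≤ k' → W b k' w := by
  induction h with
  | nil k => intro k' _; exact W.nil k'
  | x k w _ ih => intro k' hk; exact W.x k' w (ih hk)
  | call k u v _ _ ihu ihv =>
    intro k' hk
    obtain ⟨k'', rfl⟩ : ∃ k'', k' = k'' + 1 := ⟨k' - 1, by omega⟩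
    exact W.call k'' u v (ihu (by omega)) (ihv hk)
  | lift k w _ ih => intro k' hk; exact W.lift k' w (ih hk)
  | br k t u v w ht _ _ _ ihu ihv ihw =>
    intro k' hk; exact W.br k' t u v w ht (ihu hk) (ihv hk) (ihw hk)

theorem W.app_false {b : Bool} {k : ℕ} {u : List Ga} (h : W b k u) : b = false →
    ∀ {v : List Ga}, W false k v → W false k (u ++ v) := by
  induction h with
  | nil k => intro _ v hv; exact hv
  | x k w _ ih => intro hb v hv; exact W.x k _ (ih hb hv)
  | call k u v h1 _ _ ih =>
    intro hb v' hv'
    have := W.call k u (v ++ v') h1 (ih hb hv')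
    simpa [List.append_assoc] using this
  | lift k w _ _ => intro hb; exact absurd hb (by simp)
  | br => intro hb; exact absurd hb (by simp)

/-- a list of calls followed by a structured word -/
theorem W.app_left {k : ℕ} {u v : List Ga} (hu : W false k u) (hv : W true k v) :
    W true k (u ++ v) := by
  cases hv with
  | lift _ _ h => exact W.lift k _ (hu.app_false rfl h)
  | br _ t a b c ht ha hb hc =>
    have := W.br k t (u ++ a) b c ht (hu.app_false rfl ha) hb hc
    simpa [List.append_assoc] using this

/-- a structured word followed by a list of calls -/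
theorem W.app_right {k : ℕ} {u v : List Ga} (hu : W true k u) (hv : W false k v) :
    W true k (u ++ v) := by
  cases hu with
  | lift _ _ h => exact W.lift k _ (h.app_false rfl hv)
  | br _ t a b c ht ha hb hc =>
    have := W.br k t a b (c ++ v) ht ha hb (hc.app_false rfl hv)
    simpa [List.append_assoc] using this

theorem W.rp (k n : ℕ) : W false k (rp n) := by
  induction n with
  | zero => exact W.nil k
  | succ n ih => exact W.x k _ ih

/-! ### The stack machine -/

/-- The stack machine: an opening bracket is pushed, a closing bracket pops. -/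
def run : List Ga → List (Fin 3) → Option (List (Fin 3))
  | [], s => some s
  | Ga.x :: w, s => run w s
  | Ga.op i :: w, s => run w (i :: s)
  | Ga.cl _ :: _, [] => none
  | Ga.cl i :: w, j :: s => if i = j then run w s else none

theorem run_append (u v : List Ga) : ∀ s, run (u ++ v) s = (run u s).bind (run v) := by
  induction u with
  | nil => intro s; rfl
  | cons c u ih =>
    intro s
    cases c with
    | x => exact ih s
    | op i => exact ih (i :: s)
    | cl i =>
      cases s with
      | nil => rfl
      | cons j s =>
        simp only [List.cons_append, run]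
        split
        · exact ih s
        · rfl

theorem run_rp (n : ℕ) (s : List (Fin 3)) : run (rp n) s = some s := by
  induction n with
  | zero => rfl
  | succ n ih => exact ih

theorem W.run_eq {b : Bool} {k : ℕ} {w : List Ga} (h : W b k w) : ∀ s, run w s = some s := by
  induction h with
  | nil k => intro s; rfl
  | x k w _ ih => intro s; exact ih s
  | call k u v _ _ ihu ihv =>
    intro s
    show run (u ++ Ga.cl 2 :: v) (2 :: s) = some s
    rw [run_append, ihu]
    simp [run, ihv]
  | lift k w _ ih => exact ih
  | br k t u v w _ _ _ _ ihu ihv ihw =>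
    intro s
    rw [run_append, ihu]
    show run (v ++ Ga.cl t :: w) (t :: s) = some s
    rw [run_append, ihv]
    simp [run, ihw]

/-! ### The level -/

/-- The change of the level made by a letter. -/
def dl : Ga → ℤ
  | .x => 0
  | .op i => if i = 2 then 1 else 0
  | .cl i => if i = 2 then -1 else 0

/-- The change of the level made by a word. -/
def ds (w : List Ga) : ℤ := (w.map dl).sum

@[simp] theorem ds_nil : ds [] = 0 := rfl

@[simp] theorem ds_cons (c : Ga) (w : List Ga) : ds (c :: w) = dl c + ds w := by simp [ds]

@[simp] theorem ds_append (u v : List Ga) : ds (u ++ v) = ds u + ds v := by simp [ds]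

@[simp] theorem ds_rp (n : ℕ) : ds (rp n) = 0 := by
  induction n with
  | zero => rfl
  | succ n ih => show ds (Ga.x :: rp n) = 0; simp [ih, dl]

theorem W.ds_eq {b : Bool} {k : ℕ} {w : List Ga} (h : W b k w) : ds w = 0 := by
  induction h with
  | nil k => rfl
  | x k w _ ih => simp [dl, ih]
  | call k u v _ _ ihu ihv => simp [dl, ihu, ihv]
  | lift k w _ ih => exact ih
  | br k t u v w ht _ _ _ ihu ihv ihw => simp [dl, ihu, ihv, ihw, ht]

theorem Ok_iff {c : Ga} (hc : c ≠ Ga.x) (e E : ℕ) : Ok c e E ↔ (E : ℤ) = e + dl c := by
  cases c with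
  | x => exact absurd rfl hc
  | op i =>
    simp only [Ok, dl]
    split <;> omega
  | cl i =>
    simp only [Ok, dl]
    split <;> omega

theorem dl_le (c : Ga) : dl c ≤ 1 := by
  cases c with
  | x => simp [dl]
  | op i => simp only [dl]; split <;> omega
  | cl i => simp only [dl]; split <;> omega

/-- If all prefixes have level at most `j`, then the depth is at most `j`. -/
theorem W.of_level {b : Bool} {k : ℕ} {w : List Ga} (h : W b k w) :
    ∀ j : ℕ, (∀ p, p <+: w → ds p ≤ j) → W b j w := by
  induction h with
  | nil k => intro j _; exact W.nil j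
  | x k w _ ih =>
    intro j hj
    refine W.x j w (ih j fun p hp => ?_)
    have := hj (Ga.x :: p) (List.cons_prefix_cons.2 ⟨rfl, hp⟩)
    simpa [dl] using this
  | call k u v hu hv ihu ihv =>
    intro j hj
    have h1 := hj [Ga.op 2] ⟨u ++ Ga.cl 2 :: v, by simp⟩
    simp [dl] at h1
    obtain ⟨j', rfl⟩ : ∃ j', j = j' + 1 := ⟨j - 1, by omega⟩
    refine W.call j' u v (ihu j' fun p hp => ?_) (ihv (j' + 1) fun p hp => ?_)
    · obtain ⟨q, hq⟩ := hp
      have := hj (Ga.op 2 :: p) ⟨q ++ Ga.cl 2 :: v, by rw [← hq]; simp⟩
      simp [dl] at this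
      omega
    · obtain ⟨q, hq⟩ := hp
      have := hj (Ga.op 2 :: (u ++ Ga.cl 2 :: p)) ⟨q, by rw [← hq]; simp⟩
      simp [dl, hu.ds_eq] at this
      omega
  | lift k w _ ih => intro j hj; exact W.lift j w (ih j hj)
  | br k t u v w ht hu hv hw ihu ihv ihw =>
    intro j hj
    refine W.br j t u v w ht (ihu j fun p hp => ?_) (ihv j fun p hp => ?_) (ihw j fun p hp => ?_)
    · obtain ⟨q, hq⟩ := hp
      exact hj p ⟨q ++ Ga.op t :: (v ++ Ga.cl t :: w), by rw [← hq]; simp⟩
    · obtain ⟨q, hq⟩ := hp
      have := hj (u ++ Ga.op t :: p) ⟨q ++ Ga.cl t :: w, by rw [← hq]; simp⟩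
      simpa [dl, hu.ds_eq, ht] using this
    · obtain ⟨q, hq⟩ := hp
      have := hj (u ++ Ga.op t :: (v ++ Ga.cl t :: p)) ⟨q, by rw [← hq]; simp⟩
      simpa [dl, hu.ds_eq, hv.ds_eq, ht] using this

/-! ### Blocks -/

theorem notEnd_nil : NotEnd [] := by
  intro α' h
  simp at h

theorem notEnd_snoc (α : List Ga) {c : Ga} (hc : c ≠ Ga.x) : NotEnd (α ++ [c]) := by
  intro α' h
  have := List.append_inj_right' h rfl
  simp at this
  exact hc this

theorem notBeg_nil : NotBeg [] := by
  intro β' h
  simp at h

theorem notBeg_cons {c : Ga} (hc : c ≠ Ga.x) (β : List Ga) : NotBeg (c :: β) := by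
  intro β' h
  exact hc (List.cons.inj h).1

theorem rp_add (m n : ℕ) : rp (m + n) = rp m ++ rp n := by
  rw [rp, rp, rp, List.replicate_add]

theorem rp_succ (n : ℕ) : rp (n + 1) = Ga.x :: rp n := by
  simp [rp, List.replicate_succ]

theorem rp_succ' (n : ℕ) : rp (n + 1) = rp n ++ [Ga.x] := by
  simp [rp, List.replicate_succ']

@[simp] theorem rp_zero : rp 0 = [] := rfl

@[simp] theorem length_rp (n : ℕ) : (rp n).length = n := by simp [rp]

/-- every word is a word not ending with `x` followed by a block -/
theorem exists_end (w : List Ga) : ∃ α e, w = α ++ rp e ∧ NotEnd α := by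
  induction w using List.reverseRecOn with
  | nil => exact ⟨[], 0, rfl, notEnd_nil⟩
  | append_singleton w c ih =>
    by_cases hc : c = Ga.x
    · subst hc
      obtain ⟨α, e, rfl, h⟩ := ih
      exact ⟨α, e + 1, by rw [rp_succ', List.append_assoc], h⟩
    · exact ⟨w ++ [c], 0, by simp, notEnd_snoc w hc⟩

/-- every word is a block followed by a word not beginning with `x` -/
theorem exists_beg (w : List Ga) : ∃ e β, w = rp e ++ β ∧ NotBeg β := by
  induction w with
  | nil => exact ⟨0, [], rfl, notBeg_nil⟩
  | cons c w ih =>
    by_cases hc : c = Ga.x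
    · subst hc
      obtain ⟨e, β, rfl, h⟩ := ih
      exact ⟨e + 1, β, by rw [rp_succ]; rfl, h⟩
    · exact ⟨0, c :: w, rfl, notBeg_cons hc w⟩

theorem rp_append_inj {e f : ℕ} {β γ : List Ga} (hβ : NotBeg β) (hγ : NotBeg γ)
    (h : rp e ++ β = rp f ++ γ) : e = f ∧ β = γ := by
  induction e generalizing f with
  | zero =>
    cases f with
    | zero => exact ⟨rfl, h⟩
    | succ f =>
      rw [rp_succ] at h
      exact absurd h (hβ _)
  | succ e ih =>
    cases f with
    | zero =>
      rw [rp_succ] at h
      exact absurd h.symm (hγ _)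
    | succ f =>
      rw [rp_succ, rp_succ] at h
      obtain ⟨h1, h2⟩ := ih (List.cons.inj h).2
      exact ⟨by omega, h2⟩

/-- In a word without errors neighbouring blocks are in the relation `Ok`. -/
theorem ok_of_not_err {w : List Ga} (hw : ¬ Err w) {α : List Ga} {e : ℕ} {c : Ga} {E : ℕ}
    {β : List Ga} (h : w = α ++ (rp e ++ c :: (rp E ++ β))) (hα : NotEnd α) (hβ : NotBeg β)
    (hc : c ≠ Ga.x) : Ok c e E := by
  by_contra hO
  exact hw ⟨α, e, c, E, β, h, hα, hβ, hc, hO⟩

/-- The length of the first block of a word. -/
def fst (w : List Ga) : ℕ := (w.takeWhile (· = Ga.x)).length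

theorem fst_eq (e : ℕ) {β : List Ga} (hβ : NotBeg β) : fst (rp e ++ β) = e := by
  induction e with
  | zero =>
    cases β with
    | nil => rfl
    | cons c β =>
      have hc : c ≠ Ga.x := fun h => hβ β (by rw [h])
      simp [fst, hc]
  | succ e ih =>
    rw [rp_succ]
    simp only [fst, List.cons_append, decide_true, List.takeWhile_cons_of_pos, List.length_cons]
    simpa [fst] using ih

/-- In a word without errors the length of a block is determined by the first block and the level. -/
theorem level_block {w : List Ga} (hw : ¬ Err w) (α : List Ga) : ∀ {c : Ga} {e : ℕ} {β : List Ga},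
    w = α ++ c :: (rp e ++ β) → NotBeg β → c ≠ Ga.x → (e : ℤ) = fst w + ds (α ++ [c]) := by
  induction h : α.length using Nat.strong_induction_on generalizing α with
  | _ n ih =>
    intro c e β hwe hβ hc
    obtain ⟨α', f, rfl, hα'⟩ := exists_end α
    have h1 : Ok c f e := ok_of_not_err hw (α := α') (e := f) (c := c) (E := e) (β := β)
      (by rw [hwe]; simp) hα' hβ hc
    rw [Ok_iff hc] at h1
    rcases List.eq_nil_or_concat α' with rfl | ⟨α'', c', rfl⟩
    · have h2 : fst w = f := by
        rw [hwe]
        simp only [List.nil_append]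
        exact fst_eq f (notBeg_cons hc _)
      rw [h2, h1]
      simp
    · have hc' : c' ≠ Ga.x := by
        rintro rfl
        exact hα' α'' (by simp)
      have h2 := ih α''.length (by rw [← h]; simp) α'' rfl (c := c') (e := f)
        (β := c :: (rp e ++ β)) (by rw [hwe]; simp) (notBeg_cons hc _) hc'
      rw [h1, h2]
      simp
      ring

end Pool.Agent.U61.NX
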