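import Pool.Agent.U61.NX.Short

set_option autoImplicit false

/-!
# The depth of structured words in a graph without erroneous paths
-/

namespace Pool.Agent.U61.NX

variable {Q : Type} {E : Q → Option Ga → Q → Prop}

/-- The first prefix of level at least `j`. -/
theorem exists_level {w P : List Ga} (hP : P <+: w) {j : ℤ} (hj : 1 ≤ j) (h : j ≤ ds P) :
    ∃ α c γ, w = α ++ c :: γ ∧ ds (α ++ [c]) = j ∧ c ≠ Ga.x := by
  induction P using List.reverseRecOn with
  | nil => simp at h; omega
  | append_singleton P c ih =>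
    by_cases h1 : j ≤ ds P
    · exact ih ((List.prefix_append P [c]).trans hP) h1
    · obtain ⟨γ, hγ⟩ := hP
      have h2 : ds (P ++ [c]) = ds P + dl c := by simp
      have h3 := dl_le c
      refine ⟨P, c, γ, by rw [← hγ]; simp, by omega, ?_⟩
      rintro rfl
      simp [dl] at h
      omega

/-- The first block is determined by any prefix containing a bracket. -/
theorem fst_append (α : List Ga) {c : Ga} (hc : c ≠ Ga.x) (γ : List Ga) :
    fst (α ++ c :: γ) = fst (α ++ [c]) := by
  obtain ⟨e, β, rfl, hβ⟩ := exists_beg α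
  have h1 : ∀ γ, NotBeg (β ++ c :: γ) := by
    intro γ
    cases β with
    | nil => exact notBeg_cons hc γ
    | cons b β =>
      have hb : b ≠ Ga.x := by
        rintro rfl
        exact hβ β rfl
      exact notBeg_cons hb _
  rw [List.append_assoc, List.append_assoc, fst_eq e (h1 γ), fst_eq e (h1 [])]

theorem sum_card (D : ℕ) : 2 * ∑ j : Fin D, ((j : ℕ) + 1) = D * (D + 1) := by
  rw [Fin.sum_univ_eq_sum_range (fun j => j + 1) D]
  induction D with
  | zero => rfl
  | succ D ih =>
    rw [Finset.sum_range_succ, mul_add, ih]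
    ring

/-- In a graph in which no path from `p` to `q` has an error, the depth of the structured words
labelling these paths is small. -/
theorem Pt.height [Finite Q] {p q : Q} (hE : ∀ w n, Pt E p w n q → ¬ Err w) {w : List Ga} {n k : ℕ}
    (h : Pt E p w n q) (hw : W true k w) : ∃ D, D * (D + 1) ≤ 2 * Nat.card Q ∧ W true D w := by
  classical
  have := Fintype.ofFinite Q
  have hbd : ∀ P : List Ga, ds P ≤ P.length := by
    intro P
    induction P with
    | nil => simp
    | cons c P ih =>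
      have := dl_le c
      simp
      omega
  have hex : ∃ D : ℕ, ∀ P, P <+: w → ds P ≤ D :=
    ⟨w.length, fun P hP => (hbd P).trans (by exact_mod_cast hP.length_le)⟩
  obtain ⟨D, hD, hmin⟩ : ∃ D : ℕ, (∀ P, P <+: w → ds P ≤ D) ∧
      ∀ m : ℕ, (∀ P, P <+: w → ds P ≤ m) → D ≤ m :=
    ⟨Nat.find hex, Nat.find_spec hex, fun m hm => Nat.find_min' hex hm⟩
  refine ⟨D, ?_, hw.of_level D hD⟩
  have hj : ∀ j : Fin D, ∃ α c γ, w = α ++ c :: γ ∧ ds (α ++ [c]) = (j : ℤ) + 1 ∧ c ≠ Ga.x := by
    intro j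
    have h1 : ¬ ∀ P, P <+: w → ds P ≤ ((j : ℕ) : ℤ) := by
      intro h2
      have := hmin j h2
      have := j.2
      omega
    push Not at h1
    obtain ⟨P, hP1, hP2⟩ := h1
    exact exists_level hP1 (by omega) (by omega)
  have hj2 : ∀ j : Fin D, ∃ α c e c' β, w = α ++ c :: (rp e ++ c' :: β) ∧ c ≠ Ga.x ∧ c' ≠ Ga.x ∧
      ds (α ++ [c]) = (j : ℤ) + 1 ∧ (e : ℤ) = fst w + ((j : ℤ) + 1) := by
    intro j
    obtain ⟨α, c, γ, h1, h2, hc⟩ := hj j
    obtain ⟨e, β, rfl, hβ⟩ := exists_beg γ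
    cases β with
    | nil =>
      exfalso
      have h3 := hw.ds_eq
      rw [h1] at h3
      simp at h3 h2
      omega
    | cons c' β =>
      have hc' : c' ≠ Ga.x := by
        rintro rfl
        exact hβ β rfl
      refine ⟨α, c, e, c', β, h1, hc, hc', h2, ?_⟩
      have := level_block (hE w n h) α h1 hβ hc
      rw [this, h2]
  choose α c e c' β h1 hc hc' h2 h3 using hj2
  -- the states
  have hs : ∀ x : (Σ j : Fin D, Fin ((j : ℕ) + 1)), ∃ s m1 m2,
      Pt E p (α x.1 ++ c x.1 :: rp x.2) m1 s ∧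
      Pt E s (rp (e x.1 - x.2) ++ c' x.1 :: β x.1) m2 q := by
    rintro ⟨j, r⟩
    have h4 := h3 j
    have h5 : (r : ℕ) ≤ e j := by
      have := r.2
      omega
    have h6 : w = (α j ++ c j :: rp r) ++ (rp (e j - r) ++ c' j :: β j) := by
      conv_lhs => rw [h1 j]
      have : rp (e j) = rp r ++ rp (e j - r) := by rw [← rp_add]; congr 1; omega
      rw [this]
      simp
    obtain ⟨s, m1, m2, -, h7, h8⟩ := h.split h6
    exact ⟨s, m1, m2, h7, h8⟩
  choose s m1 m2 h4 h5 using hs
  have hinj : Function.Injective s := by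
    rintro ⟨j, r⟩ ⟨j', r'⟩ hjr
    have h6 := (h4 ⟨j, r⟩).append (hjr ▸ h5 ⟨j', r'⟩)
    set w' := (α j ++ c j :: rp r) ++ (rp (e j' - r') ++ c' j' :: β j') with hw'
    have h7 : ¬ Err w' := hE _ _ h6
    have h8 : w' = α j ++ c j :: (rp ((r : ℕ) + (e j' - r')) ++ c' j' :: β j') := by
      rw [hw', rp_add]; simp
    have h9 := level_block h7 (α j) h8 (notBeg_cons (hc' j') _) (hc j)
    rw [h8, fst_append _ (hc j), ← fst_append (α j) (hc j) (rp (e j) ++ c' j :: β j), ← h1 j,
      h2 j] at h9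
    have h10 := h3 j'
    have h11 := r'.2
    have h12 := h3 j
    -- the block after
    obtain ⟨F, δ, hδ, hδ'⟩ := exists_beg (β j')
    have h13 : Ok (c' j') (e j') F :=
      ok_of_not_err (hE w n h) (α := α j' ++ [c j']) (e := e j') (c := c' j') (E := F) (β := δ)
        (by rw [← hδ]; conv_lhs => rw [h1 j']
            simp) (notEnd_snoc _ (hc j')) hδ' (hc' j')
    have h14 : Ok (c' j') ((r : ℕ) + (e j' - r')) F :=
      ok_of_not_err h7 (α := α j ++ [c j]) (e := (r : ℕ) + (e j' - r')) (c := c' j') (E := F)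
        (β := δ) (by rw [h8, ← hδ]; simp) (notEnd_snoc _ (hc j)) hδ' (hc' j')
    rw [Ok_iff (hc' j')] at h13 h14
    have h15 : (r : ℕ) = r' := by omega
    have h16 : j = j' := by
      apply Fin.ext
      omega
    subst h16
    have h17 : r = r' := Fin.ext h15
    rw [h17]
  have hcard := Fintype.card_le_of_injective s hinj
  rw [Fintype.card_sigma] at hcard
  simp only [Fintype.card_fin] at hcard
  rw [← sum_card D, Nat.card_eq_fintype_card]
  omega

/-- Short paths labelled by words of the language. -/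
theorem Pt.short_lng [Finite Q] {p q : Q} {w : List Ga} {n : ℕ} (h : Pt E p w n q) (hw : w ∈ Lng) :
    ∃ w' n' D, D * (D + 1) ≤ 2 * Nat.card Q ∧ n' ≤ 8 * Nat.card Q + 3 + bS (Nat.card Q) D ∧
      w' ∈ Lng ∧ Pt E p w' n' q := by
  by_cases hE : ∃ w n, Pt E p w n q ∧ Err w
  · obtain ⟨w, n, h1, h2⟩ := hE
    obtain ⟨w', n', h3, h4, h5⟩ := h1.short_err h2
    exact ⟨w', n', 0, by omega, by omega, Or.inr h4, h5⟩
  · push Not at hE
    rcases hw with ⟨k, hk⟩ | hw
    · obtain ⟨D, h1, h2⟩ := h.height hE hk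
      obtain ⟨w', n', k', h3, h4, h5⟩ := (Rch.short D).2 p q ⟨w, n, h, h2⟩
      exact ⟨w', n', D, h1, by omega, Or.inl ⟨k', h5⟩, h4⟩
    · exact absurd hw (hE w n h)

end Pool.Agent.U61.NX
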