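import Pool.Agent.U61.NX.Defs

set_option autoImplicit false

/-!
# Shortening of paths
-/

namespace Pool.Agent.U61.NX

/-- `It R n a b`: there is a chain of `n` steps of `R` from `a` to `b`. -/
inductive It {V : Type} (R : V → V → Prop) : ℕ → V → V → Prop
  | nil (a : V) : It R 0 a a
  | cons {n : ℕ} {a b c : V} : R a b → It R n b c → It R (n + 1) a c

theorem It.append {V : Type} {R : V → V → Prop} {m n : ℕ} {a b c : V} (h : It R m a b)
    (h' : It R n b c) : It R (m + n) a c := by
  induction h with
  | nil a => simpa using h'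
  | @cons m a b c hs _ ih =>
    have := It.cons hs (ih h')
    rwa [show m + 1 + n = m + n + 1 by ring]

/-- Splitting a chain. -/
theorem It.split {V : Type} {R : V → V → Prop} {n : ℕ} {a c : V} (h : It R n a c) :
    ∀ m ≤ n, ∃ b, It R m a b ∧ It R (n - m) b c := by
  induction h with
  | nil a => intro m hm; obtain rfl : m = 0 := by omega
             exact ⟨a, It.nil a, It.nil a⟩
  | @cons n a b c hs hr ih =>
    intro m hm
    rcases Nat.eq_zero_or_pos m with rfl | h0
    · exact ⟨a, It.nil a, It.cons hs hr⟩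
    · obtain ⟨m', rfl⟩ : ∃ m', m = m' + 1 := ⟨m - 1, by omega⟩
      obtain ⟨d, h1, h2⟩ := ih m' (by omega)
      exact ⟨d, It.cons hs h1, by rwa [show n + 1 - (m' + 1) = n - m' by omega]⟩

/-- A chain can be shortened to a chain with at most as many steps as there are points. -/
theorem It.short {V : Type} [Finite V] {R : V → V → Prop} {a c : V}
    (h : ∃ n, It R n a c) : ∃ n, n ≤ Nat.card V ∧ It R n a c := by
  classical
  have := Fintype.ofFinite V
  obtain ⟨n, hn, hmin⟩ : ∃ n, It R n a c ∧ ∀ m, It R m a c → n ≤ m :=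
    ⟨Nat.find h, Nat.find_spec h, fun m hm => Nat.find_min' h hm⟩
  refine ⟨n, ?_, hn⟩
  by_contra hlt
  push Not at hlt
  choose f hf1 hf2 using fun i : Fin (n + 1) => hn.split i.1 (by omega)
  have hcard : Fintype.card V < Fintype.card (Fin (n + 1)) := by
    rw [Fintype.card_fin, ← Nat.card_eq_fintype_card]; omega
  obtain ⟨i, j, hij, hfij⟩ := Fintype.exists_ne_map_eq_of_card_lt f hcard
  wlog hlt' : i < j generalizing i j
  · exact this j i hij.symm hfij.symm (lt_of_le_of_ne (not_lt.1 hlt') hij.symm)
  have h1 := (hf1 i).append (hfij ▸ hf2 j)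
  have h2 := hmin _ h1
  have h3 : (i : ℕ) < j := hlt'
  have h4 := j.2
  omega

/-! ### Paths with labels -/

/-- `Pt E p w n q`: there is a path from `p` to `q` with `n` edges and label `w`; an edge is labelled
by a letter or by nothing. -/
inductive Pt {Q : Type} (E : Q → Option Ga → Q → Prop) : Q → List Ga → ℕ → Q → Prop
  | nil (p : Q) : Pt E p [] 0 p
  | cons {p q r : Q} {x : Option Ga} {w : List Ga} {n : ℕ} : E p x q → Pt E q w n r →
      Pt E p (x.toList ++ w) (n + 1) r

variable {Q : Type} {E : Q → Option Ga → Q → Prop}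

theorem Pt.append {p q r : Q} {u v : List Ga} {m n : ℕ} (h : Pt E p u m q) (h' : Pt E q v n r) :
    Pt E p (u ++ v) (m + n) r := by
  induction h with
  | nil p => simpa using h'
  | @cons p q r x w m hs _ ih =>
    have := Pt.cons hs (ih h')
    rw [List.append_assoc, show m + 1 + n = m + n + 1 by ring]
    exact this

theorem Pt.letter {p q : Q} {c : Ga} (h : E p (some c) q) : Pt E p [c] 1 q := by
  have := Pt.cons h (Pt.nil (E := E) q)
  simpa using this

/-- Splitting a path at a position of the label. -/
theorem Pt.split {p r : Q} {w : List Ga} {n : ℕ} (h : Pt E p w n r) : ∀ {u v : List Ga},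
    w = u ++ v → ∃ q m1 m2, n = m1 + m2 ∧ Pt E p u m1 q ∧ Pt E q v m2 r := by
  induction h with
  | nil p =>
    intro u v h
    have h' := List.append_eq_nil_iff.1 h.symm
    obtain ⟨rfl, rfl⟩ := h'
    exact ⟨p, 0, 0, rfl, Pt.nil p, Pt.nil p⟩
  | @cons p q r x w n hs hr ih =>
    intro u v h
    cases x with
    | none =>
      obtain ⟨s, m1, m2, rfl, h1, h2⟩ := ih (by simpa using h)
      refine ⟨s, m1 + 1, m2, by ring, ?_, h2⟩
      have := Pt.cons hs h1
      simpa using this
    | some c =>
      cases u with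
      | nil =>
        have h' : v = c :: w := by simpa using h.symm
        subst h'
        refine ⟨p, 0, n + 1, by ring, Pt.nil p, ?_⟩
        have := Pt.cons hs hr
        simpa using this
      | cons c' u =>
        have h' : c :: w = c' :: (u ++ v) := by simpa using h
        obtain ⟨rfl, h''⟩ := List.cons.inj h'
        obtain ⟨s, m1, m2, rfl, h1, h2⟩ := ih h''
        refine ⟨s, m1 + 1, m2, by ring, ?_, h2⟩
        have := Pt.cons hs h1
        simpa using this

/-- The first letter of a path. -/
theorem Pt.split_cons {p r : Q} {c : Ga} {v : List Ga} {n : ℕ} (h : Pt E p (c :: v) n r) :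
    ∃ q q' m1 m2, n = m1 + (1 + m2) ∧ Pt E p [] m1 q ∧ E q (some c) q' ∧ Pt E q' v m2 r := by
  generalize hw : c :: v = w at h
  induction h with
  | nil p => exact absurd hw (by simp)
  | @cons p q r x w n hs hr ih =>
    cases x with
    | none =>
      obtain ⟨s, s', m1, m2, rfl, h1, h2, h3⟩ := ih (by simpa using hw)
      refine ⟨s, s', m1 + 1, m2, by ring, ?_, h2, h3⟩
      have := Pt.cons hs h1
      simpa using this
    | some c' =>
      have h' : c :: v = c' :: w := by simpa using hw
      obtain ⟨rfl, rfl⟩ := List.cons.inj h'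
      exact ⟨p, q, 0, n, by ring, Pt.nil p, hs, hr⟩

/-- Splitting a path after a number of edges. -/
theorem Pt.split_len {p r : Q} {w : List Ga} {n : ℕ} (h : Pt E p w n r) : ∀ m ≤ n,
    ∃ q u v, w = u ++ v ∧ Pt E p u m q ∧ Pt E q v (n - m) r := by
  induction h with
  | nil p => intro m hm; obtain rfl : m = 0 := by omega
             exact ⟨p, [], [], rfl, Pt.nil p, Pt.nil p⟩
  | @cons p q r x w n hs hr ih =>
    intro m hm
    rcases Nat.eq_zero_or_pos m with rfl | h0
    · exact ⟨p, [], x.toList ++ w, rfl, Pt.nil p, Pt.cons hs hr⟩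
    · obtain ⟨m', rfl⟩ : ∃ m', m = m' + 1 := ⟨m - 1, by omega⟩
      obtain ⟨s, u, v, rfl, h1, h2⟩ := ih m' (by omega)
      exact ⟨s, x.toList ++ u, v, by simp, Pt.cons hs h1,
        by rwa [show n + 1 - (m' + 1) = n - m' by omega]⟩

/-- The points along a path. -/
theorem Pt.points {p r : Q} {w : List Ga} {n : ℕ} (h : Pt E p w n r) :
    ∃ (s : ℕ → Q) (x : ℕ → Option Ga), s 0 = p ∧ s n = r ∧ (∀ i < n, E (s i) (x i) (s (i + 1))) ∧
      w = ((List.range n).map fun i => (x i).toList).flatten := by
  induction h with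
  | nil p => exact ⟨fun _ => p, fun _ => none, rfl, rfl, fun i hi => absurd hi (by omega), rfl⟩
  | @cons p q r x w n hs _ ih =>
    obtain ⟨s, y, h0, h1, h2, h3⟩ := ih
    refine ⟨fun i => Nat.casesOn i p s, fun i => Nat.casesOn i x y, rfl, h1, ?_, ?_⟩
    · intro i hi
      cases i with
      | zero => show E p x (s 0); rw [h0]; exact hs
      | succ i => exact h2 i (by omega)
    · rw [List.range_succ_eq_map]
      simp only [List.map_cons, List.flatten_cons, List.map_map]
      rw [h3]
      rfl

/-- Conversely, the segment between two points. -/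
theorem Pt.of_points (s : ℕ → Q) (x : ℕ → Option Ga) (k : ℕ) : ∀ i : ℕ,
    (∀ j, i ≤ j → j < i + k → E (s j) (x j) (s (j + 1))) →
    Pt E (s i) (((List.range' i k).map fun j => (x j).toList).flatten) k (s (i + k)) := by
  induction k with
  | zero => intro i _; exact Pt.nil _
  | succ k ih =>
    intro i h
    have h1 := ih (i + 1) (fun j hj hj' => h j (by omega) (by omega))
    have h2 := Pt.cons (h i (le_refl _) (by omega)) h1
    rw [show i + (k + 1) = i + 1 + k by ring]
    simpa [List.range'_succ] using h2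

/-- A long path has a cycle at its beginning. -/
theorem Pt.cycle [Finite Q] {p r : Q} {w : List Ga} {n : ℕ} (h : Pt E p w n r)
    (hn : Nat.card Q ≤ n) : ∃ q u v z m1 m2, w = u ++ (v ++ z) ∧ 1 ≤ m2 ∧ m1 + m2 ≤ Nat.card Q ∧
      Pt E p u m1 q ∧ Pt E q v m2 q ∧ Pt E q z (n - (m1 + m2)) r := by
  classical
  have := Fintype.ofFinite Q
  obtain ⟨s, x, h0, h1, h2, h3⟩ := h.points
  have hcard : Fintype.card Q < Fintype.card (Fin (Nat.card Q + 1)) := by
    rw [Fintype.card_fin, ← Nat.card_eq_fintype_card]; omega
  obtain ⟨i, j, hij, hfij⟩ := Fintype.exists_ne_map_eq_of_card_lt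
    (fun i : Fin (Nat.card Q + 1) => s i) hcard
  wlog hlt' : i < j generalizing i j
  · exact this j i hij.symm hfij.symm (lt_of_le_of_ne (not_lt.1 hlt') hij.symm)
  have h4 : (i : ℕ) < j := hlt'
  have h5 := j.2
  have h6 : s i = s j := hfij
  have e1 := Pt.of_points (E := E) s x i 0 (fun k _ hk => h2 k (by omega))
  have e2 := Pt.of_points (E := E) s x (j - i) i (fun k _ hk => h2 k (by omega))
  have e3 := Pt.of_points (E := E) s x (n - j) j (fun k _ hk => h2 k (by omega))
  rw [zero_add, h0] at e1
  rw [show (i : ℕ) + (j - i) = j by omega, ← h6] at e2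
  rw [show (j : ℕ) + (n - j) = n by omega, h1, ← h6] at e3
  refine ⟨s i, _, _, ((List.range' (j : ℕ) (n - j)).map fun k => (x k).toList).flatten, i, j - i,
    ?_, by omega, by omega, e1, e2, ?_⟩
  · rw [h3, ← List.flatten_append, ← List.flatten_append, ← List.map_append, ← List.map_append]
    congr 2
    rw [List.range_eq_range']
    have a1 : List.range' (i : ℕ) (j - i) ++ List.range' (j : ℕ) (n - j) =
        List.range' (i : ℕ) (n - i) := by
      have := List.range'_append (s := (i : ℕ)) (m := j - i) (n := n - j) (step := 1)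
      rw [show (i : ℕ) + 1 * (j - i) = j by omega] at this
      rw [this]
      congr 1
      omega
    have a2 : List.range' 0 (i : ℕ) ++ List.range' (i : ℕ) (n - i) = List.range' 0 n := by
      have := List.range'_append (s := 0) (m := (i : ℕ)) (n := n - i) (step := 1)
      rw [show 0 + 1 * (i : ℕ) = i by omega] at this
      rw [this]
      congr 1
      omega
    rw [a1, a2]
  · rw [show n - ((i : ℕ) + (j - i)) = n - j by omega]
    exact e3

end Pool.Agent.U61.NX
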