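import Pool.Agent.U61.NX.Path

set_option autoImplicit false

/-!
# Short paths labelled by words of the language
-/

namespace Pool.Agent.U61.NX

variable {Q : Type} {E : Q → Option Ga → Q → Prop}

/-! ### Arbitrary labels and empty labels -/

theorem Pt.short_any [Finite Q] {p q : Q} {w : List Ga} {n : ℕ} (h : Pt E p w n q) :
    ∃ w' n', n' ≤ Nat.card Q ∧ Pt E p w' n' q := by
  have h1 : ∃ n, It (fun a b => ∃ x, E a x b) n p q := by
    refine ⟨n, ?_⟩
    induction h with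
    | nil p => exact It.nil p
    | cons hs _ ih => exact It.cons ⟨_, hs⟩ ih
  obtain ⟨m, hm, h2⟩ := It.short h1
  have h3 : ∃ w', Pt E p w' m q := by
    clear hm h1 h
    induction h2 with
    | nil a => exact ⟨[], Pt.nil a⟩
    | cons hs _ ih =>
      obtain ⟨x, hx⟩ := hs
      obtain ⟨w', h'⟩ := ih
      exact ⟨_, Pt.cons hx h'⟩
  obtain ⟨w', h'⟩ := h3
  exact ⟨w', m, hm, h'⟩

theorem Pt.short_nil [Finite Q] {p q : Q} {n : ℕ} (h : Pt E p [] n q) :
    ∃ n', n' ≤ Nat.card Q ∧ Pt E p [] n' q := by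
  have h1 : ∃ n, It (fun a b => E a none b) n p q := by
    refine ⟨n, ?_⟩
    generalize hw : ([] : List Ga) = w at h
    induction h with
    | nil p => exact It.nil p
    | @cons p q r x w n hs _ ih =>
      cases x with
      | none => exact It.cons hs (ih (by simpa using hw))
      | some c => exact absurd hw (by simp)
  obtain ⟨m, hm, h2⟩ := It.short h1
  refine ⟨m, hm, ?_⟩
  clear hm h1 h
  induction h2 with
  | nil a => exact Pt.nil a
  | cons hs _ ih =>
    have := Pt.cons hs ih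
    simpa using this

theorem Pt.short_notEnd [Finite Q] {p q : Q} {w : List Ga} {n : ℕ} (h : Pt E p w n q)
    (hw : NotEnd w) : ∃ w' n', n' ≤ 2 * Nat.card Q + 1 ∧ NotEnd w' ∧ Pt E p w' n' q := by
  rcases List.eq_nil_or_concat w with rfl | ⟨w0, c, rfl⟩
  · obtain ⟨n', h1, h2⟩ := h.short_nil
    exact ⟨[], n', by omega, notEnd_nil, h2⟩
  · have hc : c ≠ Ga.x := by
      rintro rfl
      exact hw w0 (by simp)
    obtain ⟨s, m1, m2, -, h1, h2⟩ := h.split (u := w0) (v := [c]) (by simp)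
    obtain ⟨s1, s2, m3, m4, -, h3, h4, h5⟩ := h2.split_cons
    obtain ⟨w1, k1, hk1, h6⟩ := (h1.append h3).short_any
    obtain ⟨k2, hk2, h7⟩ := h5.short_nil
    refine ⟨w1 ++ [c], k1 + (1 + k2), by omega, notEnd_snoc w1 hc, ?_⟩
    have := h6.append ((Pt.letter h4).append h7)
    simpa using this

theorem Pt.short_notBeg [Finite Q] {p q : Q} {w : List Ga} {n : ℕ} (h : Pt E p w n q)
    (hw : NotBeg w) : ∃ w' n', n' ≤ 2 * Nat.card Q + 1 ∧ NotBeg w' ∧ Pt E p w' n' q := by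
  cases w with
  | nil =>
    obtain ⟨n', h1, h2⟩ := h.short_nil
    exact ⟨[], n', by omega, notBeg_nil, h2⟩
  | cons c w0 =>
    have hc : c ≠ Ga.x := by
      rintro rfl
      exact hw w0 rfl
    obtain ⟨s1, s2, m3, m4, -, h3, h4, h5⟩ := h.split_cons
    obtain ⟨w1, k1, hk1, h6⟩ := h5.short_any
    obtain ⟨k2, hk2, h7⟩ := h3.short_nil
    refine ⟨c :: w1, k2 + (1 + k1), by omega, notBeg_cons hc w1, ?_⟩
    have := h7.append ((Pt.letter h4).append h6)
    simpa using this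

/-! ### Blocks -/

theorem rp_eq_append {e : ℕ} {u v : List Ga} (h : rp e = u ++ v) :
    ∃ a b, u = rp a ∧ v = rp b ∧ e = a + b := by
  have h' := List.append_eq_replicate_iff.1 h.symm
  exact ⟨u.length, v.length, h'.2.1, h'.2.2, h'.1.symm⟩

/-- A path labelled by a block whose length is different from `v` can be shortened. -/
theorem Pt.short_rp [Finite Q] (v : ℤ) {p q : Q}
    (h : ∃ (e : ℕ) (n : ℕ), (e : ℤ) ≠ v ∧ Pt E p (rp e) n q) :
    ∃ (e : ℕ) (n : ℕ), n ≤ 2 * Nat.card Q ∧ (e : ℤ) ≠ v ∧ Pt E p (rp e) n q := by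
  classical
  have h' : ∃ n, ∃ e : ℕ, (e : ℤ) ≠ v ∧ Pt E p (rp e) n q := by
    obtain ⟨e, n, h1, h2⟩ := h
    exact ⟨n, e, h1, h2⟩
  obtain ⟨n, ⟨e, he, hn⟩, hmin⟩ : ∃ n, (∃ e : ℕ, (e : ℤ) ≠ v ∧ Pt E p (rp e) n q) ∧
      ∀ m, (∃ e : ℕ, (e : ℤ) ≠ v ∧ Pt E p (rp e) m q) → n ≤ m :=
    ⟨Nat.find h', Nat.find_spec h', fun m hm => Nat.find_min' h' hm⟩
  refine ⟨e, n, ?_, he, hn⟩
  by_contra hlt
  push Not at hlt
  have hm' : ∀ (f m : ℕ), m < n → Pt E p (rp f) m q → (f : ℤ) = v := by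
    intro f m hm hf
    by_contra hne
    have := hmin m ⟨f, hne, hf⟩
    omega
  obtain ⟨s, u1, v1, z1, m1, m2, hw1, hm2, hm12, h1, h2, h3⟩ := hn.cycle (by omega)
  obtain ⟨s', u2, v2, z2, m3, m4, hw2, hm4, hm34, h4, h5, h6⟩ := h3.cycle (by omega)
  obtain ⟨a1, b1, rfl, hb1, e1⟩ := rp_eq_append hw1
  obtain ⟨b2, b3, rfl, hb3, e2⟩ := rp_eq_append hb1.symm
  rw [hw2] at hb3
  obtain ⟨a4, b4, rfl, hb4, e3⟩ := rp_eq_append hb3.symm
  obtain ⟨b5, b6, rfl, rfl, e4⟩ := rp_eq_append hb4.symm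
  -- remove the first cycle
  have k1 := h1.append h3
  rw [hw2, ← rp_add, ← rp_add, ← rp_add] at k1
  have r1 := hm' _ _ (by omega) k1
  -- remove both cycles
  have k2 := h1.append (h4.append h6)
  rw [← rp_add, ← rp_add] at k2
  have r2 := hm' _ _ (by omega) k2
  -- remove the second cycle
  have k3 := h1.append (h2.append (h4.append h6))
  rw [← rp_add, ← rp_add, ← rp_add] at k3
  have r3 := hm' _ _ (by omega) k3
  apply he
  push_cast at r1 r2 r3 ⊢
  subst e1 e2 e3 e4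
  push_cast
  omega

/-! ### Words with an error -/

theorem Pt.short_err [Finite Q] {p q : Q} {w : List Ga} {n : ℕ} (h : Pt E p w n q) (hw : Err w) :
    ∃ w' n', n' ≤ 8 * Nat.card Q + 3 ∧ Err w' ∧ Pt E p w' n' q := by
  obtain ⟨α, e, c, F, β, rfl, hα, hβ, hc, hO⟩ := hw
  obtain ⟨p1, m1, m2, -, h1, h2⟩ := h.split rfl
  obtain ⟨p2, m3, m4, -, h3, h4⟩ := h2.split rfl
  obtain ⟨p2', p3, m5, m6, -, h5, h6, h7⟩ := h4.split_cons
  obtain ⟨p4, m7, m8, -, h8, h9⟩ := h7.split rfl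
  obtain ⟨α', n1, hn1, hα', k1⟩ := h1.short_notEnd hα
  obtain ⟨β', n2, hn2, hβ', k2⟩ := h9.short_notBeg hβ
  rw [Ok_iff hc] at hO
  have h35 : Pt E p1 (rp e) (m3 + m5) p2' := by
    have := h3.append h5
    simpa using this
  obtain ⟨e', n3, hn3, he', k3⟩ := Pt.short_rp ((F : ℤ) - dl c) ⟨e, _, by omega, h35⟩
  obtain ⟨F', n4, hn4, hF', k4⟩ := Pt.short_rp ((e' : ℤ) + dl c) ⟨F, _, by omega, h8⟩
  refine ⟨α' ++ (rp e' ++ c :: (rp F' ++ β')), n1 + (n3 + (1 + (n4 + n2))), by omega,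
    ⟨α', e', c, F', β', rfl, hα', hβ', hc, ?_⟩, ?_⟩
  · rw [Ok_iff hc]
    exact hF'
  · have := k1.append (k3.append ((Pt.letter h6).append (k4.append k2)))
    simpa using this

/-! ### Structured words -/

/-- `q` is reached from `p` by a structured word. -/
def Rch (E : Q → Option Ga → Q → Prop) (b : Bool) (k : ℕ) (p q : Q) : Prop :=
  ∃ w n, Pt E p w n q ∧ W b k w

/-- `q` is reached from `p` by a structured word on a path with at most `B` edges. -/
def RchS (E : Q → Option Ga → Q → Prop) (b : Bool) (B : ℕ) (p q : Q) : Prop :=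
  ∃ w n k, n ≤ B ∧ Pt E p w n q ∧ W b k w

/-- bound for the structured words -/
def bS (N : ℕ) : ℕ → ℕ
  | 0 => N * N * (2 * (N * 2) + 2) + N * 2
  | k + 1 => N * N * (2 * (N * (2 + bS N k)) + 2) + N * (2 + bS N k)

/-- bound for the lists of calls -/
def bP (N : ℕ) : ℕ → ℕ
  | 0 => N * 2
  | k + 1 => N * (2 + bS N k)

theorem bS_eq (N k : ℕ) : bS N k = N * N * (2 * bP N k + 2) + bP N k := by
  cases k <;> rfl

/-- A step of a list of calls. -/
def St (E : Q → Option Ga → Q → Prop) (k : ℕ) (p q : Q) : Prop :=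
  (∃ x : Option Ga, (x = none ∨ x = some Ga.x) ∧ E p x q) ∨
    ∃ j p' q', k = j + 1 ∧ E p (some (Ga.op 2)) p' ∧ Rch E true j p' q' ∧ E q' (some (Ga.cl 2)) q

theorem it_of_nil (k : ℕ) {p q : Q} {n : ℕ} (h : Pt E p [] n q) : ∃ m, It (St E k) m p q := by
  generalize hw : ([] : List Ga) = w at h
  induction h with
  | nil p => exact ⟨0, It.nil p⟩
  | @cons p q r x w n hs _ ih =>
    cases x with
    | none =>
      obtain ⟨m, hm⟩ := ih (by simpa using hw)
      exact ⟨m + 1, It.cons (Or.inl ⟨none, Or.inl rfl, hs⟩) hm⟩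
    | some c => exact absurd hw (by simp)

theorem it_of_W {b : Bool} {k : ℕ} {w : List Ga} (hw : W b k w) : b = false →
    ∀ {p q : Q} {n : ℕ}, Pt E p w n q → ∃ m, It (St E k) m p q := by
  induction hw with
  | nil k => intro _ p q n h; exact it_of_nil k h
  | x k w _ ih =>
    intro hb p q n h
    obtain ⟨s1, s2, m1, m2, -, h1, h2, h3⟩ := h.split_cons
    obtain ⟨a, ha⟩ := it_of_nil k h1
    obtain ⟨b, hb'⟩ := ih hb h3
    exact ⟨a + (b + 1), ha.append (It.cons (Or.inl ⟨_, Or.inr rfl, h2⟩) hb')⟩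
  | call k u v hu _ _ ih =>
    intro hb p q n h
    obtain ⟨s1, s2, m1, m2, -, h1, h2, h3⟩ := h.split_cons
    obtain ⟨s3, m3, m4, -, h4, h5⟩ := h3.split rfl
    obtain ⟨s4, s5, m5, m6, -, h6, h7, h8⟩ := h5.split_cons
    obtain ⟨a, ha⟩ := it_of_nil (k + 1) h1
    obtain ⟨b, hb'⟩ := ih hb h8
    have h9 : Pt E s2 u (m3 + m5) s4 := by
      have := h4.append h6
      simpa using this
    exact ⟨a + (b + 1), ha.append (It.cons (Or.inr ⟨k, s2, s4, rfl, h2, ⟨u, _, h9, hu⟩, h7⟩) hb')⟩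
  | lift => intro hb; exact absurd hb (by simp)
  | br => intro hb; exact absurd hb (by simp)

theorem RchS.app_false {B B' : ℕ} {p q r : Q} (h : RchS E false B p q)
    (h' : RchS E false B' q r) : RchS E false (B + B') p r := by
  obtain ⟨w, n, k, h1, h2, h3⟩ := h
  obtain ⟨w', n', k', h1', h2', h3'⟩ := h'
  exact ⟨w ++ w', n + n', max k k', by omega, h2.append h2',
    (h3.mono (le_max_left k k')).app_false rfl (h3'.mono (le_max_right k k'))⟩

/-- Realization of a chain of steps. -/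
theorem RchS.of_it {k B : ℕ} (hB : ∀ j p q, k = j + 1 → Rch E true j p q → RchS E true B p q)
    {n : ℕ} {p q : Q} (h : It (St E k) n p q) : RchS E false (n * (2 + B)) p q := by
  induction h with
  | nil a => exact ⟨[], 0, 0, by omega, Pt.nil a, W.nil 0⟩
  | @cons n a b c hs _ ih =>
    have h1 : RchS E false (2 + B) a b := by
      rcases hs with ⟨x, hx, hE⟩ | ⟨j, p', q', hk, h1, h2, h3⟩
      · rcases hx with rfl | rfl
        · refine ⟨[], 1, 0, by omega, ?_, W.nil 0⟩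
          have := Pt.cons hE (Pt.nil (E := E) b)
          simpa using this
        · exact ⟨[Ga.x], 1, 0, by omega, Pt.letter hE, W.x 0 [] (W.nil 0)⟩
      · obtain ⟨w, m, k', h4, h5, h6⟩ := hB j p' q' hk h2
        refine ⟨Ga.op 2 :: (w ++ [Ga.cl 2]), 1 + (m + 1), k' + 1, by omega, ?_,
          W.call k' w [] h6 (W.nil _)⟩
        have := (Pt.letter h1).append (h5.append (Pt.letter h3))
        simpa using this
    have := h1.app_false ih
    rwa [show (n + 1) * (2 + B) = 2 + B + n * (2 + B) by ring]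

/-- A step of a chain of nested brackets. -/
def St2 (E : Q → Option Ga → Q → Prop) (k : ℕ) (a b : Q × Q) : Prop :=
  ∃ t p1 q1, t ≠ 2 ∧ Rch E false k a.1 p1 ∧ E p1 (some (Ga.op t)) b.1 ∧
    E b.2 (some (Ga.cl t)) q1 ∧ Rch E false k q1 a.2

theorem it2_of_W {b : Bool} {k : ℕ} {w : List Ga} (hw : W b k w) : b = true →
    ∀ {p q : Q} {n : ℕ}, Pt E p w n q →
      ∃ m a, It (St2 E k) m (p, q) a ∧ Rch E false k a.1 a.2 := by
  induction hw with
  | nil => intro hb; exact absurd hb (by simp)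
  | x => intro hb; exact absurd hb (by simp)
  | call => intro hb; exact absurd hb (by simp)
  | lift k w hw _ => intro _ p q n h; exact ⟨0, (p, q), It.nil _, w, n, h, hw⟩
  | br k t u v w ht hu hv hw _ ih _ =>
    intro hb p q n h
    obtain ⟨s1, m1, m2, -, h1, h2⟩ := h.split rfl
    obtain ⟨s2, s3, m3, m4, -, h3, h4, h5⟩ := h2.split_cons
    obtain ⟨s4, m5, m6, -, h6, h7⟩ := h5.split rfl
    obtain ⟨s5, s6, m7, m8, -, h8, h9, h10⟩ := h7.split_cons
    have h13 : Pt E p u (m1 + m3) s2 := by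
      have := h1.append h3
      simpa using this
    have h68 : Pt E s3 v (m5 + m7) s5 := by
      have := h6.append h8
      simpa using this
    obtain ⟨m, a, h11, h12⟩ := ih hb h68
    exact ⟨m + 1, a, It.cons ⟨t, s2, s6, ht, ⟨u, _, h13, hu⟩, h4, h9, ⟨w, _, h10, hw⟩⟩ h11, h12⟩

theorem RchS.of_it2 {k B : ℕ} (hB : ∀ p q, Rch E false k p q → RchS E false B p q)
    {n : ℕ} {a b : Q × Q} (h : It (St2 E k) n a b) (hb : RchS E false B b.1 b.2) :
    RchS E true (n * (2 * B + 2) + B) a.1 a.2 := by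
  induction h with
  | nil a =>
    obtain ⟨w, m, k', h1, h2, h3⟩ := hb
    exact ⟨w, m, k', by omega, h2, W.lift k' w h3⟩
  | @cons n a b c hs _ ih =>
    obtain ⟨t, p1, q1, ht, h1, h2, h3, h4⟩ := hs
    obtain ⟨w, m, k', h5, h6, h7⟩ := ih hb
    obtain ⟨w1, m1, k1, h8, h9, h10⟩ := hB _ _ h1
    obtain ⟨w2, m2, k2, h11, h12, h13⟩ := hB _ _ h4
    refine ⟨w1 ++ Ga.op t :: (w ++ Ga.cl t :: w2), m1 + (1 + (m + (1 + m2))), k' + k1 + k2, ?_, ?_,
      W.br _ t w1 w w2 ht (h10.mono (by omega)) (h7.mono (by omega)) (h13.mono (by omega))⟩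
    · have : (n + 1) * (2 * B + 2) = n * (2 * B + 2) + (2 * B + 2) := by ring
      omega
    · have := h9.append ((Pt.letter h2).append (h6.append ((Pt.letter h3).append h12)))
      simpa using this

theorem RchS.mono {b : Bool} {B B' : ℕ} {p q : Q} (h : RchS E b B p q) (hB : B ≤ B') :
    RchS E b B' p q := by
  obtain ⟨w, n, k, h1, h2, h3⟩ := h
  exact ⟨w, n, k, h1.trans hB, h2, h3⟩

theorem Rch.short [Finite Q] (k : ℕ) :
    (∀ p q, Rch E false k p q → RchS E false (bP (Nat.card Q) k) p q) ∧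
      ∀ p q, Rch E true k p q → RchS E true (bS (Nat.card Q) k) p q := by
  induction k with
  | zero =>
    have h1 : ∀ p q, Rch E false 0 p q → RchS E false (bP (Nat.card Q) 0) p q := by
      rintro p q ⟨w, n, h, hw⟩
      obtain ⟨m, hm, hi⟩ := It.short (it_of_W hw rfl h)
      have := RchS.of_it (B := 0) (fun j _ _ hj _ => absurd hj (by omega)) hi
      refine this.mono ?_
      simp only [bP]
      exact Nat.mul_le_mul hm (le_refl _)
    refine ⟨h1, ?_⟩
    rintro p q ⟨w, n, h, hw⟩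
    obtain ⟨m, a, hi, ha⟩ := it2_of_W hw rfl h
    obtain ⟨m', hm', hi'⟩ := It.short ⟨m, hi⟩
    have := RchS.of_it2 h1 hi' (h1 _ _ ha)
    refine this.mono ?_
    rw [bS_eq]
    rw [Nat.card_prod] at hm'
    exact Nat.add_le_add_right (Nat.mul_le_mul hm' (le_refl _)) _
  | succ k ih =>
    have h1 : ∀ p q, Rch E false (k + 1) p q → RchS E false (bP (Nat.card Q) (k + 1)) p q := by
      rintro p q ⟨w, n, h, hw⟩
      obtain ⟨m, hm, hi⟩ := It.short (it_of_W hw rfl h)
      have := RchS.of_it (B := bS (Nat.card Q) k) (fun j p q hj hr => by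
        obtain rfl : k = j := by omega
        exact ih.2 p q hr) hi
      refine this.mono ?_
      simp only [bP]
      exact Nat.mul_le_mul hm (le_refl _)
    refine ⟨h1, ?_⟩
    rintro p q ⟨w, n, h, hw⟩
    obtain ⟨m, a, hi, ha⟩ := it2_of_W hw rfl h
    obtain ⟨m', hm', hi'⟩ := It.short ⟨m, hi⟩
    have := RchS.of_it2 h1 hi' (h1 _ _ ha)
    refine this.mono ?_
    rw [bS_eq]
    rw [Nat.card_prod] at hm'
    exact Nat.add_le_add_right (Nat.mul_le_mul hm' (le_refl _)) _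

end Pool.Agent.U61.NX
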