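import Pool.Agent.U61.NX.Height
import Pool.Agent.Helper288.ConeTr
import Pool.Agent.Helper178.GramLfp

set_option autoImplicit false

/-!
# The language of binary trees is not in the cone
-/

namespace Pool.Agent.U61.NX

open Pool.Agent.Helper288.Cone Pool.Agent.Helper178.Gram

/-- The words of the binary trees. -/
inductive Tw : List (Fin 4) → Prop
  | leaf : Tw [3]
  | node (u v : List (Fin 4)) : Tw u → Tw v → Tw (0 :: (u ++ 1 :: (v ++ [2])))

/-- The language of binary trees. -/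
def TreeL : Language (Fin 4) := {w | Tw w}

open Symbol in
theorem treeL_cf : TreeL.IsContextFree := by
  classical
  let r1 : ContextFreeRule (Fin 4) Unit := ⟨(), [terminal 3]⟩
  let r2 : ContextFreeRule (Fin 4) Unit :=
    ⟨(), [terminal 0, nonterminal (), terminal 1, nonterminal (), terminal 2]⟩
  let g : ContextFreeGrammar (Fin 4) := { NT := Unit, initial := (), rules := {r1, r2} }
  refine ⟨g, ?_⟩
  ext w
  rw [ContextFreeGrammar.mem_language_iff]
  constructor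
  · intro h
    have h1 := sound (g := g) (I := fun _ => Tw) (by
      intro r hr w hw
      have hr' : r = r1 ∨ r = r2 := by
        simpa [g] using hr
      rcases hr' with rfl | rfl
      · obtain ⟨w', rfl, h⟩ := hw
        have : w' = [] := h
        subst this
        exact Tw.leaf
      · obtain ⟨w', rfl, u, w2, rfl, hu, w3, rfl, v, w4, rfl, hv, w5, rfl, h⟩ := hw
        have : w5 = [] := h
        subst this
        exact Tw.node u v hu hv) (s := [nonterminal g.initial]) (w := w) h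
    obtain ⟨w1, w2, rfl, h1, h2⟩ := h1
    have : w2 = [] := h2
    subst this
    rw [List.append_nil]
    exact h1
  · intro h
    show Der g () w
    induction h with
    | leaf => exact complete (g := g) (r := r1) (by simp [g]) ⟨[], rfl, rfl⟩
    | node u v _ _ ihu ihv =>
      exact complete (g := g) (r := r2) (by simp [g])
        ⟨_, rfl, u, _, rfl, ihu, _, rfl, v, _, rfl, ihv, [], rfl, rfl⟩

/-- The steps of the automaton measuring the depth. -/
def Ap (j : ℕ) (b : Bool) (c : Fin 4) (j' : ℕ) (b' : Bool) : Prop :=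
  (c = 0 ∧ b = false ∧ b' = false ∧ j = j' + 1) ∨ (c = 1 ∧ b = true ∧ b' = false ∧ j = j') ∨
    (c = 2 ∧ b = true ∧ b' = true ∧ j' = j + 1) ∨
    (c = 3 ∧ b = false ∧ b' = true ∧ j = 0 ∧ j' = 0)

/-- The paths of the automaton measuring the depth. -/
inductive Aw (m : ℕ) : Fin (m + 1) × Bool → List (Fin 4) → Fin (m + 1) × Bool → Prop
  | nil (p : Fin (m + 1) × Bool) : Aw m p [] p
  | cons {p q r : Fin (m + 1) × Bool} {c : Fin 4} {w : List (Fin 4)} :
      Ap p.1 p.2 c q.1 q.2 → Aw m q w r → Aw m p (c :: w) r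

theorem Aw.append {m : ℕ} {p q r : Fin (m + 1) × Bool} {u v : List (Fin 4)} (h : Aw m p u q)
    (h' : Aw m q v r) : Aw m p (u ++ v) r := by
  induction h with
  | nil p => exact h'
  | cons hs _ ih => exact Aw.cons hs (ih h')

theorem Aw.split {m : ℕ} {p r : Fin (m + 1) × Bool} {u v : List (Fin 4)}
    (h : Aw m p (u ++ v) r) : ∃ q, Aw m p u q ∧ Aw m q v r := by
  induction u generalizing p with
  | nil => exact ⟨p, Aw.nil p, h⟩
  | cons c u ih =>
    cases h with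
    | cons hs hr =>
      obtain ⟨q', h1, h2⟩ := ih hr
      exact ⟨q', Aw.cons hs h1, h2⟩

theorem Aw.cons_inv {m : ℕ} {p r : Fin (m + 1) × Bool} {c : Fin 4} {v : List (Fin 4)}
    (h : Aw m p (c :: v) r) : ∃ q, Ap p.1 p.2 c q.1 q.2 ∧ Aw m q v r := by
  cases h with
  | cons hs hr => exact ⟨_, hs, hr⟩

theorem Aw.nil_inv {m : ℕ} {p r : Fin (m + 1) × Bool} (h : Aw m p [] r) : p = r := by
  cases h with
  | nil => rfl

/-- A tree accepted from the state of depth `j` has at least `2 ^ j` letters. -/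
theorem Aw.tree {w : List (Fin 4)} (hw : Tw w) : ∀ {m : ℕ} {p q : Fin (m + 1) × Bool},
    Aw m p w q → p.2 = false → q.2 = true ∧ q.1 = p.1 ∧ 2 ^ (p.1 : ℕ) ≤ w.length := by
  induction hw with
  | leaf =>
    intro m p q h hp
    obtain ⟨r, h1, h2⟩ := h.cons_inv
    obtain rfl := h2.nil_inv
    rcases h1 with ⟨h, -⟩ | ⟨h, -⟩ | ⟨h, -⟩ | ⟨-, -, h3, h4, h5⟩
    · exact absurd h (by decide)
    · exact absurd h (by decide)
    · exact absurd h (by decide)
    · exact ⟨h3, Fin.ext (by omega), by rw [h4]; simp⟩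
  | node u v _ _ ihu ihv =>
    intro m p q h hp
    obtain ⟨p1, h1, h2⟩ := h.cons_inv
    obtain ⟨p2, h3, h4⟩ := h2.split
    obtain ⟨p3, h5, h6⟩ := h4.cons_inv
    obtain ⟨p4, h7, h8⟩ := h6.split
    obtain ⟨p5, h9, h10⟩ := h8.cons_inv
    obtain rfl := h10.nil_inv
    have k1 : p1.2 = false ∧ (p.1 : ℕ) = p1.1 + 1 := by
      rcases h1 with ⟨-, -, h3, h4⟩ | ⟨h, -⟩ | ⟨h, -⟩ | ⟨h, -⟩
      · exact ⟨h3, h4⟩
      · exact absurd h (by decide)
      · exact absurd h (by decide)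
      · exact absurd h (by decide)
    obtain ⟨a1, a2, a3⟩ := ihu h3 k1.1
    have k2 : p3.2 = false ∧ (p2.1 : ℕ) = p3.1 := by
      rcases h5 with ⟨h, -⟩ | ⟨-, -, h3, h4⟩ | ⟨h, -⟩ | ⟨h, -⟩
      · exact absurd h (by decide)
      · exact ⟨h3, h4⟩
      · exact absurd h (by decide)
      · exact absurd h (by decide)
    obtain ⟨b1, b2, b3⟩ := ihv h7 k2.1
    have k3 : p5.2 = true ∧ (p5.1 : ℕ) = p4.1 + 1 := by
      rcases h9 with ⟨h, -⟩ | ⟨h, -⟩ | ⟨-, -, h3, h4⟩ | ⟨h, -⟩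
      · exact absurd h (by decide)
      · exact absurd h (by decide)
      · exact ⟨h3, h4⟩
      · exact absurd h (by decide)
    refine ⟨k3.1, Fin.ext ?_, ?_⟩
    · rw [k3.2, b2, ← k2.2, a2, k1.2]
    · have : (p3.1 : ℕ) = p1.1 := by rw [← k2.2, a2]
      rw [this] at b3
      rw [k1.2, pow_succ]
      simp only [List.length_cons, List.length_append, List.length_nil]
      omega

/-- The complete trees. -/
def ct : ℕ → List (Fin 4)
  | 0 => [3]
  | j + 1 => 0 :: (ct j ++ 1 :: (ct j ++ [2]))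

theorem ct_tw (j : ℕ) : Tw (ct j) := by
  induction j with
  | zero => exact Tw.leaf
  | succ j ih => exact Tw.node _ _ ih ih

theorem ct_aw (m : ℕ) : ∀ (j : ℕ) (hj : j < m + 1),
    Aw m (⟨j, hj⟩, false) (ct j) (⟨j, hj⟩, true) := by
  intro j
  induction j with
  | zero =>
    intro hj
    exact Aw.cons (q := (⟨0, hj⟩, true)) (Or.inr (Or.inr (Or.inr ⟨rfl, rfl, rfl, rfl, rfl⟩)))
      (Aw.nil _)
  | succ j ih =>
    intro hj
    have h1 := ih (by omega)
    refine Aw.cons (q := (⟨j, by omega⟩, false)) (Or.inl ⟨rfl, rfl, rfl, rfl⟩)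
      (h1.append (Aw.cons (q := (⟨j, by omega⟩, false)) (Or.inr (Or.inl ⟨rfl, rfl, rfl, rfl⟩))
        (h1.append (Aw.cons (q := (⟨j + 1, hj⟩, true))
          (Or.inr (Or.inr (Or.inl ⟨rfl, rfl, rfl, rfl⟩))) (Aw.nil _)))))

/-- The product of a transducer and the automaton measuring the depth. -/
def Ge (T : Tr Ga (Fin 4)) (m : ℕ) (p : T.σ × (Fin (m + 1) × Bool)) (x : Option Ga)
    (q : T.σ × (Fin (m + 1) × Bool)) : Prop :=
  (T.step p.1 x none q.1 ∧ p.2 = q.2) ∨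
    ∃ c, T.step p.1 x (some c) q.1 ∧ Ap p.2.1 p.2.2 c q.2.1 q.2.2

theorem ge_of_run {T : Tr Ga (Fin 4)} {m : ℕ} {p q : T.σ} {u : List Ga} {v : List (Fin 4)}
    (h : T.Run p u v q) : ∀ {a b : Fin (m + 1) × Bool}, Aw m a v b →
      ∃ n, Pt (Ge T m) (p, a) u n (q, b) := by
  induction h with
  | nil p =>
    intro a b h
    obtain rfl := h.nil_inv
    exact ⟨0, Pt.nil _⟩
  | @cons p q r x y u v hs _ ih =>
    intro a b h
    cases y with
    | none =>
      obtain ⟨n, hn⟩ := ih (a := a) (b := b) (by simpa using h)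
      exact ⟨n + 1, Pt.cons (q := (q, a)) (Or.inl ⟨hs, rfl⟩) hn⟩
    | some c =>
      obtain ⟨a', h1, h2⟩ := Aw.cons_inv (c := c) (v := v) (by simpa using h)
      obtain ⟨n, hn⟩ := ih h2
      exact ⟨n + 1, Pt.cons (q := (q, a')) (Or.inr ⟨c, hs, h1⟩) hn⟩

theorem run_of_ge {T : Tr Ga (Fin 4)} {m : ℕ} {p q : T.σ × (Fin (m + 1) × Bool)} {u : List Ga}
    {n : ℕ} (h : Pt (Ge T m) p u n q) :
    ∃ v : List (Fin 4), v.length ≤ n ∧ T.Run p.1 u v q.1 ∧ Aw m p.2 v q.2 := by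
  induction h with
  | nil p => exact ⟨[], by simp, Tr.Run.nil _, Aw.nil _⟩
  | @cons p q r x w n hs _ ih =>
    obtain ⟨v, h1, h2, h3⟩ := ih
    rcases hs with ⟨h4, h5⟩ | ⟨c, h4, h5⟩
    · refine ⟨v, by omega, ?_, by rw [h5]; exact h3⟩
      have := Tr.Run.cons h4 h2
      simpa using this
    · refine ⟨c :: v, by simp; omega, ?_, Aw.cons h5 h3⟩
      have := Tr.Run.cons h4 h2
      simpa using this

/-! ### The estimate -/

theorem bS_le {N : ℕ} (hN : 1 ≤ N) (k : ℕ) : bS N k + 2 ≤ (10 * N ^ 3) ^ (k + 1) := by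
  have h1 : 1 ≤ N ^ 3 := Nat.one_le_pow _ _ hN
  have h2 : N ≤ N ^ 3 := Nat.le_self_pow (by norm_num) N
  have h3 : N * N ≤ N ^ 3 := by
    calc N * N = N ^ 2 := by ring
      _ ≤ N ^ 3 := Nat.pow_le_pow_right hN (by norm_num)
  have h4 : N * N * N = N ^ 3 := by ring
  induction k with
  | zero =>
    have e : bS N 0 = 4 * (N * N * N) + 2 * (N * N) + 2 * N := by
      simp only [bS]; ring
    rw [e, h4]
    simp only [zero_add, pow_one]
    omega
  | succ k ih =>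
    set B := (10 * N ^ 3) ^ (k + 1) with hB
    set b := bS N k with hb
    have e : bS N (k + 1) = 2 * (N * N * N * (b + 2)) + 2 * (N * N) + N * (b + 2) := by
      simp only [bS, ← hb]; ring
    have e2 : (10 * N ^ 3) ^ (k + 1 + 1) = 10 * (N ^ 3 * B) := by
      rw [pow_succ, ← hB]; ring
    rw [e, e2, h4]
    have k1 : N ^ 3 * (b + 2) ≤ N ^ 3 * B := Nat.mul_le_mul_left _ ih
    have k2 : N * (b + 2) ≤ N ^ 3 * B := Nat.mul_le_mul h2 ih
    have k3 : N ^ 3 * 2 ≤ N ^ 3 * B := Nat.mul_le_mul_left _ (by omega)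
    omega

theorem estimate (s : ℕ) (hs : 1 ≤ s) : ∃ m, ∀ D : ℕ, D * (D + 1) ≤ 2 * (s * ((m + 1) * 2)) →
    8 * (s * ((m + 1) * 2)) + 3 + bS (s * ((m + 1) * 2)) D < 2 ^ m := by
  set M := 2 ^ (s + 12) with hM
  have hM1 : 1 ≤ M := Nat.one_le_two_pow
  have hs2 : s + 1 ≤ 2 ^ s := Nat.lt_two_pow_self
  have hM2 : 4096 * (s + 1) ≤ M := by
    rw [hM, pow_add]
    have : 2 ^ s * 2 ^ 12 = 4096 * 2 ^ s := by ring
    rw [this]
    exact Nat.mul_le_mul_left _ hs2
  have hpos : 1 ≤ s * M ^ 2 := Nat.one_le_iff_ne_zero.2 (by positivity)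
  refine ⟨s * M ^ 2 - 1, fun D hD => ?_⟩
  rw [show s * M ^ 2 - 1 + 1 = s * M ^ 2 by omega] at hD ⊢
  set N := s * (s * M ^ 2 * 2) with hN
  have hN1 : 1 ≤ N := Nat.one_le_iff_ne_zero.2 (by positivity)
  have hD1 : D ≤ 2 * s * M := by
    by_contra hlt
    push Not at hlt
    have h1 : (2 * s * M) * (2 * s * M) < D * D := Nat.mul_lt_mul'' hlt hlt
    have h2 : 2 * N = (2 * s * M) * (2 * s * M) := by rw [hN]; ring
    have h3 : D * (D + 1) = D * D + D := by ring
    omega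
  have h1 := bS_le hN1 D
  set C := 10 * N ^ 3 with hC
  have hC1 : 10 ≤ C := by
    have : 1 ≤ N ^ 3 := Nat.one_le_pow _ _ hN1
    omega
  have hC2 : 8 * N + 1 ≤ C := by
    have h1 : 1 ≤ N ^ 3 := Nat.one_le_pow _ _ hN1
    have h2 : N ≤ N ^ 3 := Nat.le_self_pow (by norm_num) N
    omega
  have hC3 : C ≤ C ^ (D + 1) := Nat.le_self_pow (by omega) C
  have h2 : 8 * N + 3 + bS N D ≤ 2 * C ^ (D + 1) := by omega
  have h3 : 2 * C ^ (D + 1) ≤ C ^ (2 * s * M + 2) := by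
    calc 2 * C ^ (D + 1) ≤ C * C ^ (D + 1) := Nat.mul_le_mul_right _ (by omega)
      _ = C ^ (D + 2) := by ring
      _ ≤ C ^ (2 * s * M + 2) := Nat.pow_le_pow_right (by omega) (by omega)
  have hC4 : C ≤ 2 ^ (7 + 6 * s + 6 * (s + 12)) := by
    have e1 : N ^ 3 = 8 * (s ^ 6 * M ^ 6) := by rw [hN]; ring
    have e2 : s ^ 6 ≤ 2 ^ (6 * s) := by
      rw [mul_comm, pow_mul]
      exact Nat.pow_le_pow_left (by omega) 6
    have e3 : M ^ 6 = 2 ^ (6 * (s + 12)) := by
      rw [hM, ← pow_mul, mul_comm]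
    rw [hC, e1, pow_add, pow_add, ← e3]
    calc 10 * (8 * (s ^ 6 * M ^ 6)) = 80 * (s ^ 6 * M ^ 6) := by ring
      _ ≤ 2 ^ 7 * (2 ^ (6 * s) * M ^ 6) :=
        Nat.mul_le_mul (by norm_num) (Nat.mul_le_mul_right _ e2)
      _ = 2 ^ 7 * 2 ^ (6 * s) * M ^ 6 := by ring
  have h4 : C ^ (2 * s * M + 2) ≤ 2 ^ ((7 + 6 * s + 6 * (s + 12)) * (2 * s * M + 2)) := by
    rw [pow_mul]
    exact Nat.pow_le_pow_left hC4 _
  have h5 : (7 + 6 * s + 6 * (s + 12)) * (2 * s * M + 2) < s * M ^ 2 - 1 := by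
    have k1 : 2 ≤ 2 * s * M := by
      have : 1 ≤ s * M := Nat.one_le_iff_ne_zero.2 (by positivity)
      rw [mul_assoc]; omega
    have k2 : (7 + 6 * s + 6 * (s + 12)) * (2 * s * M + 2) ≤
        (7 + 6 * s + 6 * (s + 12)) * (4 * (s * M)) :=
      Nat.mul_le_mul_left _ (by
        have : 2 * s * M = 2 * (s * M) := by ring
        omega)
    have k3 : (7 + 6 * s + 6 * (s + 12)) * (4 * (s * M)) + 2 * (s * M) ≤ s * M ^ 2 := by
      have : (7 + 6 * s + 6 * (s + 12)) * (4 * (s * M)) + 2 * (s * M) =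
          s * M * (4 * (7 + 6 * s + 6 * (s + 12)) + 2) := by ring
      rw [this, pow_two, ← mul_assoc]
      exact Nat.mul_le_mul_left _ (by omega)
    have k4 : 1 ≤ s * M := Nat.one_le_iff_ne_zero.2 (by positivity)
    omega
  have h6 := Nat.pow_lt_pow_right (a := 2) (by norm_num) h5
  omega

/-- The language of binary trees is not in the cone of the language. -/
theorem not_inCone_treeL : ¬ InCone Lng TreeL := by
  intro h
  obtain ⟨T, hT⟩ := h.exists_tr
  have := T.fin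
  have hs : 1 ≤ Nat.card T.σ := by
    obtain ⟨u, -, p, -⟩ := (hT (ct 0)).1 (ct_tw 0)
    have : Nonempty T.σ := ⟨p⟩
    exact Nat.card_pos
  obtain ⟨m, hm⟩ := estimate (Nat.card T.σ) hs
  obtain ⟨u, hu, p, q, hp, hq, hr⟩ := (hT (ct m)).1 (ct_tw m)
  obtain ⟨n, hn⟩ := ge_of_run hr (ct_aw m m (by omega))
  obtain ⟨u', n', D, h1, h2, h3, h4⟩ := hn.short_lng hu
  have hcard : Nat.card (T.σ × (Fin (m + 1) × Bool)) = Nat.card T.σ * ((m + 1) * 2) := by
    rw [Nat.card_prod, Nat.card_prod]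
    simp
  rw [hcard] at h1 h2
  obtain ⟨v, h5, h6, h7⟩ := run_of_ge h4
  have h8 : Tw v := (hT v).2 ⟨u', h3, p, q, hp, hq, h6⟩
  obtain ⟨-, -, h9⟩ := Aw.tree h8 h7 rfl
  have h10 := hm D h1
  simp only at h9
  omega

end Pool.Agent.U61.NX
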